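import Pool.Agent.Y967.MU.MULT

set_option autoImplicit false

open MeasureTheory Filter Topology

namespace Pool.Agent.Y967.MU.BDD

open Pool.Agent.Y249.SU (lam E)
open Pool.Agent.Y967.MU.MULT

theorem lam_add_int (γ : ℤ → ℂ) (x : ℝ) (m : ℤ) : lam γ ((m : ℝ) + x) = lam γ x := by
  unfold lam
  apply tsum_congr
  intro j
  congr 1
  have : E j (m : ℝ) = 1 := by
    rw [E]
    have : (2 * (Real.pi : ℂ) * Complex.I * (j : ℂ) * ((m : ℝ) : ℂ)) =
        ((j * m : ℤ) : ℂ) * (2 * Real.pi * Complex.I) := by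
      push_cast
      ring
    rw [this, Complex.exp_int_mul_two_pi_mul_I]
  rw [Pool.Agent.Y249.SU.E_add, this, one_mul]

/-- The product of the first bases as an integer. -/
def PZ (M : ℕ → ℕ) (n : ℕ) : ℤ := ((∏ i ∈ Finset.range n, M i : ℕ) : ℤ)

lemma PZ_cast (M : ℕ → ℕ) (n : ℕ) : ((PZ M n : ℤ) : ℝ) = P M n := by
  unfold PZ P
  push_cast
  rfl

theorem t_BDD (hB : S_BUMP) (hS : S_SER) (hC1 : S_CAN1) (hC2 : S_CAN2) : S_BDD := by
  classical
  intro M hbd D hok hvol
  obtain ⟨B, hBd⟩ := hbd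
  obtain ⟨hsub, hdig⟩ := hC1 M D hok
  have hinf := hC2 M D hok hvol
  -- pigeonhole
  obtain ⟨q, e, heq, hfreq⟩ : ∃ q e : ℕ, e < q ∧ {n | M n = q ∧ e ∉ D n}.Infinite := by
    by_contra hcon
    push Not at hcon
    have h1 : (⋃ pe ∈ ((Finset.range (B + 1) ×ˢ Finset.range (B + 1)).filter
        (fun pe => pe.2 < pe.1) : Finset (ℕ × ℕ)), {n | M n = pe.1 ∧ pe.2 ∉ D n}).Finite := by
      apply Set.Finite.biUnion (Finset.finite_toSet _)
      intro pe hpe
      rw [Finset.mem_coe, Finset.mem_filter] at hpe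
      have := hcon pe.1 pe.2 hpe.2
      exact this
    obtain ⟨N, hN⟩ := h1.bddAbove
    obtain ⟨n, hn, d, hd, hdn⟩ := hinf (N + 1)
    have h2 : n ≤ N := by
      apply hN
      rw [Set.mem_iUnion₂]
      refine ⟨(M n, d), ?_, rfl, hdn⟩
      rw [Finset.mem_filter, Finset.mem_product, Finset.mem_range, Finset.mem_range]
      have := hBd n
      exact ⟨⟨by simp only; omega, by simp only; omega⟩, hd⟩
    omega
  set s : ℕ → ℕ := Nat.nth (fun n => M n = q ∧ e ∉ D n) with hs
  have hsmono : StrictMono s := Nat.nth_strictMono hfreq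
  have hsmem : ∀ k, M (s k) = q ∧ e ∉ D (s k) := fun k => Nat.nth_mem_of_infinite hfreq k
  have hq : (0 : ℝ) < q := by
    have : 0 < q := by omega
    exact_mod_cast this
  obtain ⟨γ, hγ, hγ0, hγz⟩ := hB ((e : ℝ) / q) (((e : ℝ) + 1) / q) (by positivity)
    (by rw [div_lt_div_iff_of_pos_right hq]; linarith)
    (by rw [div_le_one hq]; exact_mod_cast heq)
  -- the digits avoid `e`
  have key : ∀ x ∈ moranSet M D, ∀ k, ∃ z : ℤ, ∃ y ∈ Set.Icc (0 : ℝ) 1,
      y ∉ Set.Ioo ((e : ℝ) / q) (((e : ℝ) + 1) / q) ∧ P M (s k) * x = z + y := by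
    intro x hx k
    obtain ⟨z, d, hd, y, hy, hxy⟩ := hdig x hx (s k)
    have hMk := (hsmem k).1
    have hde : d ≠ e := fun h => (hsmem k).2 (h ▸ hd)
    have hdlt : d + 1 ≤ q := by
      have := (hok.2 (s k)).2 d hd
      omega
    have hdlt' : (d : ℝ) + 1 ≤ q := by exact_mod_cast hdlt
    rw [hMk] at hxy
    refine ⟨z, ((d : ℝ) + y) / q, ⟨?_, ?_⟩, ?_, hxy⟩
    · have := hy.1
      positivity
    · rw [div_le_one hq]
      linarith [hy.2]
    · rintro ⟨h1, h2⟩
      rw [div_lt_div_iff_of_pos_right hq] at h1 h2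
      rcases lt_or_gt_of_ne hde with h3 | h3
      · have : (d : ℝ) + 1 ≤ e := by exact_mod_cast h3
        linarith [hy.2]
      · have : (e : ℝ) + 1 ≤ d := by exact_mod_cast h3
        linarith [hy.1]
  apply hS (moranSet M D) hsub (fun k => PZ M (s k)) ?_ γ hγ hγ0 ?_ ?_
  · rw [tendsto_atTop]
    intro C
    filter_upwards [eventually_ge_atTop C.toNat] with k hk
    have h1 : (2 : ℝ) ^ (s k) ≤ P M (s k) := P_ge hok (s k)
    have h2 : ((s k : ℕ) : ℝ) < 2 ^ (s k) := by exact_mod_cast Nat.lt_two_pow_self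
    have h3 : (k : ℝ) ≤ s k := by exact_mod_cast hsmono.id_le k
    have h4 : ((k : ℤ) : ℝ) ≤ ((PZ M (s k) : ℤ) : ℝ) := by
      rw [PZ_cast]
      push_cast
      linarith
    have h5 : (k : ℤ) ≤ PZ M (s k) := by exact_mod_cast h4
    omega
  · intro x hx k
    obtain ⟨z, y, hy, hyn, hxy⟩ := key x hx k
    show lam γ (((PZ M (s k) : ℤ) : ℝ) * x) = 0
    rw [PZ_cast, hxy, lam_add_int]
    exact hγz y hy hyn
  · have hP := P_pos hok (s 0)
    refine ⟨(e : ℝ) / q / P M (s 0), ((e : ℝ) + 1) / q / P M (s 0), by positivity, ?_, ?_, ?_⟩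
    · apply div_lt_div_of_pos_right _ hP
      rw [div_lt_div_iff_of_pos_right hq]
      linarith
    · have h1 : ((e : ℝ) + 1) / q ≤ 1 := by
        rw [div_le_one hq]
        exact_mod_cast heq
      have h2 : (1 : ℝ) ≤ P M (s 0) := by
        have h3 : (1 : ℝ) ≤ 2 ^ (s 0) := one_le_pow₀ (by norm_num)
        exact h3.trans (P_ge hok (s 0))
      rw [div_le_one hP]
      linarith
    · rintro x ⟨hx1, hx2⟩ hx
      obtain ⟨z, y, hy, hyn, hxy⟩ := key x hx 0
      rw [div_lt_iff₀ hP] at hx1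
      rw [lt_div_iff₀ hP] at hx2
      have h1 : ((e : ℝ) + 1) / q ≤ 1 := by
        rw [div_le_one hq]
        exact_mod_cast heq
      have h0 : (0 : ℝ) ≤ (e : ℝ) / q := by positivity
      have hz1 : (z : ℝ) < 1 := by
        have := hy.1
        nlinarith
      have hz2 : (-1 : ℝ) < z := by
        have := hy.2
        nlinarith
      have hz3 : z < 1 := by exact_mod_cast hz1
      have hz4 : -1 < z := by exact_mod_cast hz2
      have hz5 : z = 0 := by omega
      rw [hz5] at hxy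
      simp only [Int.cast_zero, zero_add] at hxy
      apply hyn
      rw [← hxy]
      constructor
      · linarith
      · linarith

end Pool.Agent.Y967.MU.BDD
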