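import Pool.Agent.Y967.MU.MULT

set_option autoImplicit false

open MeasureTheory Filter Topology

namespace Pool.Agent.Y967.MU.CAN1

open Pool.Agent.Y967.MU.MULT

variable {M : ℕ → ℕ} {D : ℕ → Finset ℕ}

lemma int_part (h : Ok M D) (d : ℕ → ℕ) (n : ℕ) : ∃ z : ℤ,
    P M n * ∑ i ∈ Finset.range n, (d i : ℝ) / P M (i + 1) = z := by
  induction n with
  | zero => exact ⟨0, by simp⟩
  | succ n ih =>
    obtain ⟨z, hz⟩ := ih
    refine ⟨M n * z + d n, ?_⟩
    have hP1 := (P_pos h (n + 1)).ne'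
    have hP := (P_pos h n).ne'
    rw [Finset.sum_range_succ, mul_add, mul_div_cancel₀ _ hP1]
    rw [P_succ, mul_comm (P M n) (M n : ℝ), mul_assoc, hz]
    push_cast
    ring

theorem t_CAN1 : S_CAN1 := by
  intro M D h
  constructor
  · rintro x ⟨d, hd, hs⟩
    have h1 := point_near h hd hs 0
    simp only [Finset.range_zero, Finset.sum_empty, P_zero] at h1
    exact ⟨h1.1, by linarith [h1.2]⟩
  · rintro x ⟨d, hd, hs⟩ n
    obtain ⟨z, hz⟩ := int_part h d n
    have hP := P_pos h n
    have hP1 := P_pos h (n + 1)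
    have hM := M_ge h n
    have h1 := point_near h hd hs (n + 1)
    rw [Finset.sum_range_succ] at h1
    set s := ∑ i ∈ Finset.range n, (d i : ℝ) / P M (i + 1) with hs'
    refine ⟨z, d n, hd n, P M (n + 1) * (x - s) - d n, ⟨?_, ?_⟩, ?_⟩
    · have h2 : (d n : ℝ) / P M (n + 1) ≤ x - s := by linarith [h1.1]
      rw [div_le_iff₀ hP1] at h2
      linarith
    · have h2 : x - s ≤ ((d n : ℝ) + 1) / P M (n + 1) := by
        rw [add_div]
        linarith [h1.2]
      rw [le_div_iff₀ hP1] at h2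
      linarith
    · rw [← hz, P_succ]
      have hM0 : (M n : ℝ) ≠ 0 := by linarith
      field_simp
      ring

end Pool.Agent.Y967.MU.CAN1
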