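import Pool.Agent.Y967.MU.MULT

set_option autoImplicit false

open MeasureTheory Filter Topology

namespace Pool.Agent.Y967.MU.CAN2

open Pool.Agent.Y967.MU.MULT

/-- Digits of `y ∈ [0, 1 / P N)` from place `N` on. -/
theorem digits {M : ℕ → ℕ} (hM : ∀ n, 2 ≤ M n) {N : ℕ} {y : ℝ} (hy0 : 0 ≤ y)
    (hy1 : P M N * y < 1) (hP : ∀ n, 0 < P M n) :
    ∃ d : ℕ → ℕ, (∀ n, d n < M n) ∧ ∀ k : ℕ,
      (⌊P M (N + k) * y⌋₊ : ℝ) = P M (N + k) *
        ∑ i ∈ Finset.range k, (d (N + i) : ℝ) / P M (N + i + 1) := by
  refine ⟨fun n => ⌊P M (n + 1) * y⌋₊ % M n, fun n => Nat.mod_lt _ (by have := hM n; omega), ?_⟩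
  intro k
  induction k with
  | zero =>
    simp only [add_zero, Finset.range_zero, Finset.sum_empty, mul_zero, Nat.cast_eq_zero]
    rw [Nat.floor_eq_zero]
    exact hy1
  | succ k ih =>
    have hP1 := hP (N + k + 1)
    have e1 : N + (k + 1) = N + k + 1 := by ring
    rw [e1, Finset.sum_range_succ, mul_add, mul_div_cancel₀ _ hP1.ne']
    have h1 : P M (N + k + 1) = (M (N + k) : ℝ) * P M (N + k) := by rw [P_succ]; ring
    have h2 : ⌊P M (N + k) * y⌋₊ = ⌊P M (N + k + 1) * y⌋₊ / M (N + k) := by
      rw [← Nat.floor_div_natCast]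
      congr 1
      have hM0 : ((M (N + k) : ℕ) : ℝ) ≠ 0 := by
        have := hM (N + k)
        exact_mod_cast (by omega : M (N + k) ≠ 0)
      rw [h1]
      field_simp
    have h3 := Nat.div_add_mod (⌊P M (N + k + 1) * y⌋₊) (M (N + k))
    rw [← h2] at h3
    have h4 : (M (N + k) : ℝ) * (⌊P M (N + k) * y⌋₊ : ℝ) +
        ((⌊P M (N + k + 1) * y⌋₊ % M (N + k) : ℕ) : ℝ) = (⌊P M (N + k + 1) * y⌋₊ : ℝ) := by
      exact_mod_cast h3
    rw [← h4, ih]
    show _ = P M (N + k + 1) * _ + ((⌊P M (N + k + 1) * y⌋₊ % M (N + k) : ℕ) : ℝ)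
    generalize (∑ i ∈ Finset.range k,
      (((fun n => ⌊P M (n + 1) * y⌋₊ % M n) (N + i) : ℕ) : ℝ) / P M (N + i + 1)) = s
    linear_combination (-s) * h1

theorem t_CAN2 : S_CAN2 := by
  intro M D hok hvol N
  by_contra hcon
  push Not at hcon
  have hP := fun n => P_pos hok n
  choose c hc using fun n => (hok.2 n).1
  set t : ℝ := ∑ i ∈ Finset.range N, (c i : ℝ) / P M (i + 1) with ht
  have hsub : Set.Ico t (t + 1 / P M N) ⊆ moranSet M D := by
    rintro x ⟨hx0, hx1⟩
    have hy0 : 0 ≤ x - t := by linarith
    have hy1 : P M N * (x - t) < 1 := by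
      have : x - t < 1 / P M N := by linarith
      rw [lt_div_iff₀ (hP N)] at this
      linarith
    obtain ⟨d, hd, hk⟩ := digits hok.1 hy0 hy1 hP
    rw [KK_def]
    refine ⟨fun n => if n < N then c n else d n, fun n => ?_, ?_⟩
    · by_cases h : n < N
      · simp only [h, if_true]
        exact hc n
      · simp only [h, if_false]
        exact hcon n (by omega) _ (hd n)
    · rw [hasSum_iff_tendsto_nat_of_nonneg]
      · rw [← tendsto_add_atTop_iff_nat N]
        have hpart : ∀ k : ℕ, ∑ i ∈ Finset.range (k + N),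
            (((if i < N then c i else d i : ℕ) : ℕ) : ℝ) / P M (i + 1) =
            t + (⌊P M (N + k) * (x - t)⌋₊ : ℝ) / P M (N + k) := by
          intro k
          rw [hk k, mul_div_cancel_left₀ _ (hP _).ne', add_comm k N, Finset.sum_range_add]
          congr 1
          · rw [ht]
            apply Finset.sum_congr rfl
            intro i hi
            rw [if_pos (Finset.mem_range.mp hi)]
          · apply Finset.sum_congr rfl
            intro i _
            rw [if_neg (by omega)]
        simp_rw [hpart]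
        have h1 : Tendsto (fun k : ℕ => 1 / P M (N + k)) atTop (𝓝 0) := by
          have := (tendsto_add_atTop_iff_nat N).mpr (tendsto_inv_P hok)
          refine this.congr fun k => ?_
          rw [add_comm]
        have h2 : Tendsto (fun k : ℕ => x - 1 / P M (N + k)) atTop (𝓝 x) := by
          simpa using tendsto_const_nhds.sub h1
        refine tendsto_of_tendsto_of_tendsto_of_le_of_le h2 tendsto_const_nhds ?_ ?_
        · intro k
          have h3 := Nat.lt_floor_add_one (P M (N + k) * (x - t))
          have hPk := hP (N + k)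
          have h4 : x - t - 1 / P M (N + k) ≤ (⌊P M (N + k) * (x - t)⌋₊ : ℝ) / P M (N + k) := by
            rw [le_div_iff₀ hPk, sub_mul, one_div, inv_mul_cancel₀ hPk.ne']
            linarith
          simp only
          linarith
        · intro k
          have hPk := hP (N + k)
          have h3 := Nat.floor_le (a := P M (N + k) * (x - t)) (by positivity)
          have h4 : (⌊P M (N + k) * (x - t)⌋₊ : ℝ) / P M (N + k) ≤ x - t := by
            rw [div_le_iff₀ hPk]
            linarith
          simp only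
          linarith
      · intro i
        have := hP (i + 1)
        positivity
  have h1 : volume (Set.Ico t (t + 1 / P M N)) ≤ 0 := by
    rw [← hvol]
    exact measure_mono hsub
  rw [Real.volume_Ico] at h1
  have h2 : (0 : ℝ) < t + 1 / P M N - t := by
    have := hP N
    have : 0 < 1 / P M N := by positivity
    linarith
  have h3 := ENNReal.ofReal_pos.mpr h2
  exact absurd h1 (not_le.mpr h3)

end Pool.Agent.Y967.MU.CAN2
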