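import Pool.Agent.Y967.MU.Stm

/-! # Project MU (helper967): the natural measure of a Moran set with `#D_n / M_n → 1` is a Rajchman
measure (written by helper693) -/

set_option autoImplicit false

open MeasureTheory Filter Topology

namespace Pool.Agent.Y967.MU.RAJ

lemma P_pos {M : ℕ → ℕ} (h : ∀ n, 2 ≤ M n) (n : ℕ) : 0 < P M n :=
  Finset.prod_pos fun i _ => by
    have := h i
    exact_mod_cast (by omega : 0 < M i)

lemma P_succ (M : ℕ → ℕ) (n : ℕ) : P M (n + 1) = P M n * (M n : ℝ) := by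
  unfold P
  rw [Finset.prod_range_succ]

lemma P_add {M : ℕ → ℕ} (h : ∀ n, 2 ≤ M n) (s l : ℕ) : (2 : ℝ) ^ l * P M s ≤ P M (s + l) := by
  induction l with
  | zero => simp
  | succ l ih =>
      have h1 : (2 : ℝ) ≤ M (s + l) := by exact_mod_cast h (s + l)
      have h2 := P_pos h (s + l)
      rw [← add_assoc, P_succ, pow_succ]
      nlinarith

lemma P_mono {M : ℕ → ℕ} (h : ∀ n, 2 ≤ M n) {s t : ℕ} (hst : s ≤ t) : P M s ≤ P M t := by
  obtain ⟨l, rfl⟩ := Nat.exists_eq_add_of_le hst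
  have h1 := P_add h s l
  have h2 := P_pos h s
  have h3 : (1 : ℝ) ≤ 2 ^ l := one_le_pow₀ (by norm_num)
  nlinarith

lemma norm_e (k : ℤ) (t : ℝ) : ‖e k t‖ = 1 := by
  unfold e
  have h : (2 * Real.pi * Complex.I * k * t : ℂ) = ((2 * Real.pi * k * t : ℝ) : ℂ) * Complex.I := by
    push_cast
    ring
  rw [h, Complex.norm_exp_ofReal_mul_I]

lemma e_nat (k : ℤ) (t : ℝ) (d : ℕ) : e k (d * t) = e k t ^ d := by
  unfold e
  rw [← Complex.exp_nat_mul]
  congr 1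
  push_cast
  ring

/-- the sum over the digits -/
noncomputable def g (M : ℕ → ℕ) (D : ℕ → Finset ℕ) (k : ℤ) (i : ℕ) : ℂ :=
  ∑ d ∈ D i, e k ((d : ℝ) / P M (i + 1))

/-- the sum over all digits -/
noncomputable def f (M : ℕ → ℕ) (k : ℤ) (i : ℕ) : ℂ :=
  ∑ d ∈ Finset.range (M i), e k ((d : ℝ) / P M (i + 1))

lemma norm_g (M : ℕ → ℕ) (D : ℕ → Finset ℕ) (k : ℤ) (i : ℕ) : ‖g M D k i‖ ≤ (D i).card := by
  refine (norm_sum_le _ _).trans (le_of_eq ?_)
  rw [Finset.sum_congr rfl fun d _ => norm_e k _, Finset.sum_const, nsmul_eq_mul, mul_one]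

lemma norm_f (M : ℕ → ℕ) (k : ℤ) (i : ℕ) : ‖f M k i‖ ≤ M i := by
  refine (norm_sum_le _ _).trans (le_of_eq ?_)
  rw [Finset.sum_congr rfl fun d _ => norm_e k _, Finset.sum_const, nsmul_eq_mul, mul_one,
    Finset.card_range]

lemma norm_fg {M : ℕ → ℕ} {D : ℕ → Finset ℕ} (hD : ∀ n, ∀ d ∈ D n, d < M n) (k : ℤ) (i : ℕ) :
    ‖g M D k i - f M k i‖ ≤ (M i : ℝ) - (D i).card := by
  have hsub : D i ⊆ Finset.range (M i) := fun d hd => Finset.mem_range.2 (hD i d hd)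
  unfold g f
  rw [norm_sub_rev, ← Finset.sum_sdiff hsub, add_sub_cancel_right]
  refine (norm_sum_le _ _).trans (le_of_eq ?_)
  rw [Finset.sum_congr rfl fun d _ => norm_e k _, Finset.sum_const, nsmul_eq_mul, mul_one,
    Finset.card_sdiff_of_subset hsub, Finset.card_range, Nat.cast_sub]
  have := Finset.card_le_card hsub
  rwa [Finset.card_range] at this

lemma norm_F {M : ℕ → ℕ} {D : ℕ → Finset ℕ} (hD : ∀ n, (D n).Nonempty) (i : ℕ) (k : ℤ) :
    ((D i).card : ℝ) * ‖F M D i k‖ = ‖g M D k i‖ := by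
  have h : (0 : ℝ) < (D i).card := by exact_mod_cast (hD i).card_pos
  unfold F g
  rw [norm_smul, norm_inv, Real.norm_of_nonneg h.le, ← mul_assoc, mul_inv_cancel₀ h.ne', one_mul]

lemma norm_F_le {M : ℕ → ℕ} {D : ℕ → Finset ℕ} (hD : ∀ n, (D n).Nonempty) (i : ℕ) (k : ℤ) :
    ‖F M D i k‖ ≤ 1 := by
  have h : (0 : ℝ) < (D i).card := by exact_mod_cast (hD i).card_pos
  have h1 := norm_F (M := M) hD i k
  have h2 := norm_g M D k i
  rw [← h1] at h2
  nlinarith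

lemma f_mul {M : ℕ → ℕ} (h : ∀ n, 2 ≤ M n) (k : ℤ) (i : ℕ) :
    f M k i * (e k (1 / P M (i + 1)) - 1) = e k (1 / P M i) - 1 := by
  have h0 := P_pos h i
  have h1 := P_pos h (i + 1)
  have e1 : ∀ d : ℕ, e k ((d : ℝ) / P M (i + 1)) = e k (1 / P M (i + 1)) ^ d := by
    intro d
    rw [← e_nat]
    congr 1
    ring
  have e2 : e k (1 / P M i) = e k (1 / P M (i + 1)) ^ (M i) := by
    rw [← e_nat]
    congr 1
    rw [P_succ] at h1 ⊢
    have : (M i : ℝ) ≠ 0 := by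
      have := h i
      exact_mod_cast (by omega : M i ≠ 0)
    field_simp
  unfold f
  rw [Finset.sum_congr rfl fun d _ => e1 d, geom_sum_mul, e2]

lemma f_prod {M : ℕ → ℕ} (h : ∀ n, 2 ≤ M n) (k : ℤ) (s l : ℕ) :
    (∏ j ∈ Finset.range l, f M k (s + j)) * (e k (1 / P M (s + l)) - 1) = e k (1 / P M s) - 1 := by
  induction l with
  | zero => simp
  | succ l ih =>
      rw [Finset.prod_range_succ, mul_assoc]
      have := f_mul h k (s + l)
      rw [show s + (l + 1) = s + l + 1 by ring, this, ih]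

lemma g_prod (M : ℕ → ℕ) (D : ℕ → Finset ℕ) (k : ℤ) (s l : ℕ) :
    ‖∏ j ∈ Finset.range l, g M D k (s + j)‖ ≤ ∏ j ∈ Finset.range l, ((D (s + j)).card : ℝ) := by
  rw [norm_prod]
  exact Finset.prod_le_prod (fun _ _ => norm_nonneg _) fun j _ => norm_g M D k (s + j)

lemma fg_prod {M : ℕ → ℕ} {D : ℕ → Finset ℕ} (hD : ∀ n, ∀ d ∈ D n, d < M n) (k : ℤ) (s l : ℕ) :
    ‖∏ j ∈ Finset.range l, g M D k (s + j) - ∏ j ∈ Finset.range l, f M k (s + j)‖ ≤
      ∏ j ∈ Finset.range l, (M (s + j) : ℝ) - ∏ j ∈ Finset.range l, ((D (s + j)).card : ℝ) := by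
  induction l with
  | zero => simp
  | succ l ih =>
      rw [Finset.prod_range_succ, Finset.prod_range_succ, Finset.prod_range_succ,
        Finset.prod_range_succ]
      have h1 := g_prod M D k s l
      have h2 := norm_f M k (s + l)
      have h3 := norm_fg hD k (s + l)
      have e1 : (∏ j ∈ Finset.range l, g M D k (s + j)) * g M D k (s + l) -
          (∏ j ∈ Finset.range l, f M k (s + j)) * f M k (s + l) =
          (∏ j ∈ Finset.range l, g M D k (s + j)) * (g M D k (s + l) - f M k (s + l)) +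
          (∏ j ∈ Finset.range l, g M D k (s + j) - ∏ j ∈ Finset.range l, f M k (s + j)) *
            f M k (s + l) := by ring
      rw [e1]
      refine (norm_add_le _ _).trans ?_
      rw [norm_mul, norm_mul]
      have hC : (0 : ℝ) ≤ ∏ j ∈ Finset.range l, ((D (s + j)).card : ℝ) :=
        Finset.prod_nonneg fun _ _ => Nat.cast_nonneg _
      have h4 := mul_le_mul h1 h3 (norm_nonneg _) hC
      have h5 := mul_le_mul ih h2 (norm_nonneg _) ((norm_nonneg _).trans ih)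
      refine (add_le_add h4 h5).trans (le_of_eq ?_)
      ring

/-- the length of the chord -/
noncomputable def u (M : ℕ → ℕ) (k : ℤ) (i : ℕ) : ℝ := ‖e k (1 / P M i) - 1‖

lemma u_le_two (M : ℕ → ℕ) (k : ℤ) (i : ℕ) : u M k i ≤ 2 := by
  unfold u
  refine (norm_sub_le _ _).trans ?_
  rw [norm_e, norm_one]
  norm_num

lemma u_eq (M : ℕ → ℕ) (k : ℤ) (i : ℕ) :
    u M k i = 2 * |Real.sin (Real.pi * (|(k : ℝ)| / P M i))| := by
  unfold u
  have h1 : e k (1 / P M i) - 1 =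
      Complex.exp (Complex.I * ((2 * Real.pi * k * (1 / P M i) : ℝ) : ℂ)) - 1 := by
    unfold e
    congr 2
    push_cast
    ring
  rw [h1, Complex.norm_exp_I_mul_ofReal_sub_one, norm_mul, Real.norm_eq_abs, Real.norm_eq_abs,
    abs_two]
  congr 1
  rcases abs_cases (k : ℝ) with ⟨h, _⟩ | ⟨h, _⟩
  · rw [h]
    congr 2
    ring
  · rw [h]
    have : Real.pi * (-(k : ℝ) / P M i) = -(2 * Real.pi * k * (1 / P M i) / 2) := by ring
    rw [this, Real.sin_neg, abs_neg]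

lemma sin_low {y : ℝ} (h0 : 0 ≤ y) (h1 : y ≤ 1 / 2) : 2 * y ≤ Real.sin (Real.pi * y) := by
  have hp := Real.pi_pos
  have h := Real.mul_le_sin (x := Real.pi * y) (by positivity) (by nlinarith)
  have : 2 / Real.pi * (Real.pi * y) = 2 * y := by field_simp
  rwa [this] at h

lemma u_low {M : ℕ → ℕ} (h : ∀ n, 2 ≤ M n) {k : ℤ} {i : ℕ} (hk : |(k : ℝ)| / P M i ≤ 1 / 2) :
    4 * (|(k : ℝ)| / P M i) ≤ u M k i := by
  have h0 := P_pos h i
  have h1 : 0 ≤ |(k : ℝ)| / P M i := by positivity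
  have h2 := sin_low h1 hk
  have h3 : |Real.sin (Real.pi * (|(k : ℝ)| / P M i))| = Real.sin (Real.pi * (|(k : ℝ)| / P M i)) :=
    abs_of_nonneg (by linarith)
  rw [u_eq, h3]
  linarith

/-- the block inequality -/
lemma block {M : ℕ → ℕ} {D : ℕ → Finset ℕ} (h : ∀ n, 2 ≤ M n) (hD : ∀ n, ∀ d ∈ D n, d < M n)
    (hD0 : ∀ n, (D n).Nonempty) (k : ℤ) (s l : ℕ) :
    (∏ j ∈ Finset.range l, ((D (s + j)).card : ℝ)) * (∏ j ∈ Finset.range l, ‖F M D (s + j) k‖) *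
      u M k (s + l) ≤ u M k s + (∏ j ∈ Finset.range l, (M (s + j) : ℝ) -
        ∏ j ∈ Finset.range l, ((D (s + j)).card : ℝ)) * u M k (s + l) := by
  have e1 : (∏ j ∈ Finset.range l, ((D (s + j)).card : ℝ)) *
      (∏ j ∈ Finset.range l, ‖F M D (s + j) k‖) = ‖∏ j ∈ Finset.range l, g M D k (s + j)‖ := by
    rw [norm_prod, ← Finset.prod_mul_distrib]
    exact Finset.prod_congr rfl fun j _ => norm_F hD0 (s + j) k
  have h1 : ‖∏ j ∈ Finset.range l, f M k (s + j)‖ * u M k (s + l) = u M k s := by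
    unfold u
    rw [← norm_mul, f_prod h]
  have h2 := fg_prod hD k s l
  have h3 : ‖∏ j ∈ Finset.range l, g M D k (s + j)‖ ≤ ‖∏ j ∈ Finset.range l, f M k (s + j)‖ +
      (∏ j ∈ Finset.range l, (M (s + j) : ℝ) - ∏ j ∈ Finset.range l, ((D (s + j)).card : ℝ)) := by
    have h4 := norm_sub_norm_le (∏ j ∈ Finset.range l, g M D k (s + j))
      (∏ j ∈ Finset.range l, f M k (s + j))
    linarith
  rw [e1]
  refine (mul_le_mul_of_nonneg_right h3 (norm_nonneg _)).trans (le_of_eq ?_)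
  rw [add_mul]
  congr 1

theorem t_RAJ : S_RAJ := by
  intro M D hOk hFull ε₀ hε₀
  obtain ⟨hM, hD⟩ := hOk
  have hD0 : ∀ n, (D n).Nonempty := fun n => (hD n).1
  have hD1 : ∀ n, ∀ d ∈ D n, d < M n := fun n => (hD n).2
  obtain ⟨ε, hε, hε1, hεε⟩ : ∃ ε : ℝ, 0 < ε ∧ ε ≤ 1 ∧ ε ≤ ε₀ :=
    ⟨min ε₀ 1, lt_min hε₀ one_pos, min_le_right _ _, min_le_left _ _⟩
  obtain ⟨l', hl'⟩ : ∃ l' : ℕ, (1 / 2 : ℝ) ^ l' < ε / 4 :=
    exists_pow_lt_of_lt_one (by positivity) (by norm_num)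
  have hlim : Tendsto (fun s : ℕ => ∏ j ∈ Finset.range (l' + 1),
      (((D (s + j)).card : ℝ) / (M (s + j) : ℝ))) atTop (𝓝 1) := by
    have h1 : Tendsto (fun s : ℕ => ∏ j ∈ Finset.range (l' + 1),
      (((D (s + j)).card : ℝ) / (M (s + j) : ℝ))) atTop (𝓝 (∏ j ∈ Finset.range (l' + 1), 1)) :=
      tendsto_finsetProd _ fun j _ => hFull.comp (tendsto_add_atTop_nat j)
    simpa using h1
  have hlt : 1 / (1 + ε / 4) < (1 : ℝ) := by
    rw [div_lt_one (by positivity)]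
    linarith
  obtain ⟨s0, hs0⟩ := eventually_atTop.1 (hlim.eventually (lt_mem_nhds hlt))
  obtain ⟨K, hK⟩ := exists_nat_ge (P M (s0 + (l' + 1)))
  refine ⟨K, fun k hk => ?_⟩
  have hkP : P M (s0 + (l' + 1)) ≤ |(k : ℝ)| := by
    refine hK.trans ?_
    have h1 : (K : ℝ) ≤ (k.natAbs : ℝ) := by exact_mod_cast hk
    rwa [Nat.cast_natAbs, Int.cast_abs] at h1
  have hk0 : 0 < |(k : ℝ)| := (P_pos hM _).trans_le hkP
  have hex : ∃ t, |(k : ℝ)| / P M t ≤ 1 / 2 := by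
    obtain ⟨t, ht⟩ := pow_unbounded_of_one_lt (2 * |(k : ℝ)|) (one_lt_two : (1 : ℝ) < 2)
    refine ⟨t, ?_⟩
    have h1 := P_add hM 0 t
    rw [zero_add] at h1
    have h2 : P M 0 = 1 := by simp [P]
    rw [h2, mul_one] at h1
    rw [div_le_iff₀ (P_pos hM t)]
    linarith
  classical
  obtain ⟨t, ht, htmin⟩ : ∃ t, |(k : ℝ)| / P M t ≤ 1 / 2 ∧
      ∀ t' < t, ¬ |(k : ℝ)| / P M t' ≤ 1 / 2 :=
    ⟨Nat.find hex, Nat.find_spec hex, fun t' h' => Nat.find_min hex h'⟩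
  have htl : s0 + (l' + 1) < t := by
    by_contra hcon
    push Not at hcon
    have h1 := (P_mono hM hcon).trans hkP
    have h2 : 1 ≤ |(k : ℝ)| / P M t := by
      rw [le_div_iff₀ (P_pos hM t)]
      linarith
    linarith
  obtain ⟨s, hs⟩ : ∃ s, t = s + (l' + 1) := ⟨t - (l' + 1), by omega⟩
  have hs1 : s0 ≤ s := by omega
  have hQC := hs0 s hs1
  have hblock := block hM hD1 hD0 k s (l' + 1)
  rw [← hs] at hblock
  obtain ⟨C, hC⟩ : ∃ C : ℝ, C = ∏ j ∈ Finset.range (l' + 1), ((D (s + j)).card : ℝ) := ⟨_, rfl⟩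
  obtain ⟨Q, hQ⟩ : ∃ Q : ℝ, Q = ∏ j ∈ Finset.range (l' + 1), (M (s + j) : ℝ) := ⟨_, rfl⟩
  obtain ⟨φ, hφ⟩ : ∃ φ : ℝ, φ = ∏ j ∈ Finset.range (l' + 1), ‖F M D (s + j) k‖ := ⟨_, rfl⟩
  rw [Finset.prod_div_distrib, ← hC, ← hQ] at hQC
  rw [← hC, ← hQ, ← hφ] at hblock
  have hC0 : 0 < C := by
    rw [hC]
    exact Finset.prod_pos fun j _ => by exact_mod_cast (hD0 _).card_pos
  have hQ0 : 0 < Q := by
    rw [hQ]
    exact Finset.prod_pos fun j _ => by
      have := hM (s + j)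
      exact_mod_cast (by omega : 0 < M (s + j))
  have hQC' : Q ≤ (1 + ε / 4) * C := by
    rw [div_lt_div_iff₀ (by positivity) hQ0, one_mul] at hQC
    linarith
  have hPQ : P M t = P M s * Q := by
    rw [hs, hQ]
    unfold P
    rw [Finset.prod_range_add]
  have hut := u_low hM ht
  have hus := u_le_two M k s
  have hPt := P_pos hM t
  have hPs := P_pos hM s
  have hut0 : 0 < u M k t := lt_of_lt_of_le (by positivity) hut
  -- the main term
  have hmain : u M k s ≤ ε / 4 * Q * u M k t := by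
    have h1 : ¬ |(k : ℝ)| / P M (s + l') ≤ 1 / 2 := htmin (s + l') (by omega)
    rw [not_le, lt_div_iff₀ (P_pos hM _)] at h1
    have h2 := P_add hM s l'
    have h3 : (1 / 2 : ℝ) ^ l' * 2 ^ l' = 1 := by
      rw [← mul_pow]
      norm_num
    have h4 : P M s ≤ (1 / 2 : ℝ) ^ l' * (2 * |(k : ℝ)|) := by
      have h5 : (1 / 2 : ℝ) ^ l' * (2 ^ l' * P M s) ≤ (1 / 2 : ℝ) ^ l' * (2 * |(k : ℝ)|) :=
        mul_le_mul_of_nonneg_left (by linarith) (by positivity)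
      rw [← mul_assoc, h3, one_mul] at h5
      exact h5
    have h6 : P M s ≤ ε / 4 * (2 * |(k : ℝ)|) :=
      h4.trans (mul_le_mul_of_nonneg_right hl'.le (by positivity))
    have h7 : Q * (4 * (|(k : ℝ)| / P M t)) = 4 * |(k : ℝ)| / P M s := by
      rw [hPQ]
      field_simp
    have h8 : Q * (4 * (|(k : ℝ)| / P M t)) ≤ Q * u M k t := mul_le_mul_of_nonneg_left hut hQ0.le
    rw [h7] at h8
    have h9 : 2 ≤ ε / 4 * (4 * |(k : ℝ)| / P M s) := by
      rw [← mul_div_assoc, le_div_iff₀ hPs]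
      linarith
    have h10 : ε / 4 * (4 * |(k : ℝ)| / P M s) ≤ ε / 4 * (Q * u M k t) :=
      mul_le_mul_of_nonneg_left h8 (by positivity)
    calc u M k s ≤ 2 := hus
      _ ≤ ε / 4 * (Q * u M k t) := h9.trans h10
      _ = ε / 4 * Q * u M k t := by ring
  have hφε : φ ≤ ε := by
    have h1 : C * φ * u M k t ≤ (ε / 4 * Q + (Q - C)) * u M k t := by
      rw [add_mul]
      linarith
    have h2 : C * φ ≤ ε / 4 * Q + (Q - C) := le_of_mul_le_mul_right h1 hut0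
    have h3 : ε / 4 * Q ≤ ε / 4 * ((1 + ε / 4) * C) := mul_le_mul_of_nonneg_left hQC' (by positivity)
    have h4 : C * φ ≤ C * (ε / 4 * (1 + ε / 4) + ε / 4) := by
      refine h2.trans ?_
      nlinarith
    have h5 : φ ≤ ε / 4 * (1 + ε / 4) + ε / 4 := le_of_mul_le_mul_left h4 hC0
    nlinarith
  have hφ0 : 0 ≤ φ := by
    rw [hφ]
    exact Finset.prod_nonneg fun _ _ => norm_nonneg _
  filter_upwards [eventually_ge_atTop t] with n hn
  obtain ⟨m, rfl⟩ := Nat.exists_eq_add_of_le hn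
  rw [norm_prod, Finset.prod_range_add, hs, Finset.prod_range_add, ← hφ]
  have h1 : ∏ i ∈ Finset.range s, ‖F M D i k‖ ≤ 1 :=
    Finset.prod_le_one (fun _ _ => norm_nonneg _) fun i _ => norm_F_le hD0 i k
  have h2 : ∏ x ∈ Finset.range m, ‖F M D (s + (l' + 1) + x) k‖ ≤ 1 :=
    Finset.prod_le_one (fun _ _ => norm_nonneg _) fun i _ => norm_F_le hD0 _ k
  have h3 : (0 : ℝ) ≤ ∏ i ∈ Finset.range s, ‖F M D i k‖ := Finset.prod_nonneg fun _ _ => norm_nonneg _
  calc (∏ i ∈ Finset.range s, ‖F M D i k‖) * φ * ∏ x ∈ Finset.range m, ‖F M D (s + (l' + 1) + x) k‖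
      ≤ (∏ i ∈ Finset.range s, ‖F M D i k‖) * φ * 1 :=
        mul_le_mul_of_nonneg_left h2 (mul_nonneg h3 hφ0)
    _ ≤ 1 * φ * 1 := by
        rw [mul_one, mul_one]
        exact mul_le_mul_of_nonneg_right h1 hφ0
    _ ≤ ε₀ := by linarith

end Pool.Agent.Y967.MU.RAJ
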