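import Pool.Agent.Y967.MU.Stm

/-! # Project MU (helper967): reduction to a Moran subset inside `(0,1)` (written by helper693) -/

set_option autoImplicit false

open MeasureTheory Filter Topology

namespace Pool.Agent.Y967.MU.RED

lemma P_pos {M : ℕ → ℕ} (h : ∀ n, 2 ≤ M n) (n : ℕ) : 0 < P M n :=
  Finset.prod_pos fun i _ => by
    have := h i
    exact_mod_cast (by omega : 0 < M i)

lemma P_succ (M : ℕ → ℕ) (n : ℕ) : P M (n + 1) = P M n * (M n : ℝ) := by
  unfold P
  rw [Finset.prod_range_succ]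

/-- the left end point -/
noncomputable def pt (M c : ℕ → ℕ) (j : ℕ) : ℝ := ∑ i ∈ Finset.range j, (c i : ℝ) / P M (i + 1)

lemma S_eq {M : ℕ → ℕ} {D : ℕ → Finset ℕ} {c : ℕ → ℕ} {m : ℕ} (h : ∀ i, i < m → D i = {c i}) :
    ∀ j, j ≤ m → ∀ y ∈ S M D j, y = pt M c j := by
  intro j
  induction j with
  | zero =>
      intro _ y hy
      have : y = 0 := hy
      rw [this]
      simp [pt]
  | succ j ih =>
      intro hj y hy
      obtain ⟨x, hx, d, hd, rfl⟩ := hy
      rw [h j (by omega), Finset.mem_singleton] at hd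
      rw [ih (by omega) x hx, hd]
      unfold pt
      rw [Finset.sum_range_succ]

lemma upper {M c : ℕ → ℕ} (h : ∀ n, 2 ≤ M n) (hc : ∀ n, c n < M n) (n : ℕ) :
    pt M c (n + 1) + 1 / P M (n + 1) ≤ pt M c n + 1 / P M n := by
  have h1 := P_pos h (n + 1)
  have h0 := P_pos h n
  have hM : (0 : ℝ) < M n := by
    have := h n
    exact_mod_cast (by omega : 0 < M n)
  have e : (1 : ℝ) / P M n = (M n : ℝ) / P M (n + 1) := by
    rw [P_succ, div_eq_div_iff h0.ne' (by positivity)]
    ring
  unfold pt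
  rw [Finset.sum_range_succ, e, add_assoc, ← add_div]
  have h2 : (c n : ℝ) + 1 ≤ M n := by exact_mod_cast hc n
  linarith [div_le_div_of_nonneg_right h2 h1.le]

lemma upper' {M c : ℕ → ℕ} (h : ∀ n, 2 ≤ M n) {n : ℕ} (hc : c n + 1 < M n) :
    pt M c (n + 1) + 1 / P M (n + 1) < pt M c n + 1 / P M n := by
  have h1 := P_pos h (n + 1)
  have h0 := P_pos h n
  have hM : (0 : ℝ) < M n := by
    have := h n
    exact_mod_cast (by omega : 0 < M n)
  have e : (1 : ℝ) / P M n = (M n : ℝ) / P M (n + 1) := by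
    rw [P_succ, div_eq_div_iff h0.ne' (by positivity)]
    ring
  unfold pt
  rw [Finset.sum_range_succ, e, add_assoc, ← add_div]
  have h2 : (c n : ℝ) + 1 < M n := by exact_mod_cast hc
  linarith [div_lt_div_of_pos_right h2 h1]

lemma upper_le {M c : ℕ → ℕ} (h : ∀ n, 2 ≤ M n) (hc : ∀ n, c n < M n) (n : ℕ) :
    pt M c n + 1 / P M n ≤ 1 := by
  induction n with
  | zero => simp [pt, P]
  | succ n ih => exact (upper h hc n).trans ih

theorem t_RED : S_RED := by
  classical
  intro M D hOk hFull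
  obtain ⟨hM, hD⟩ := hOk
  have hev : ∀ᶠ n in atTop, (1 / 2 : ℝ) < ((D n).card : ℝ) / (M n : ℝ) :=
    hFull.eventually (lt_mem_nhds (by norm_num))
  obtain ⟨n1, hn1⟩ := eventually_atTop.1 hev
  have hcard : ∀ n, n1 ≤ n → 2 ≤ (D n).card := by
    intro n hn
    have h1 := hn1 n hn
    have h2 := hM n
    have h3 : (0 : ℝ) < M n := by exact_mod_cast (by omega : 0 < M n)
    rw [lt_div_iff₀ h3] at h1
    have h4 : (M n : ℝ) < 2 * ((D n).card : ℝ) := by linarith
    have h5 : M n < 2 * (D n).card := by exact_mod_cast h4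
    omega
  obtain ⟨c, hc⟩ : ∃ c : ℕ → ℕ, c = fun i => if i = n1 + 1 then (D i).max' (hD i).1 else
    (D i).min' (hD i).1 := ⟨_, rfl⟩
  have hcD : ∀ i, c i ∈ D i := by
    intro i
    rw [hc]
    dsimp only
    split_ifs
    · exact Finset.max'_mem _ _
    · exact Finset.min'_mem _ _
  have hcM : ∀ i, c i < M i := fun i => (hD i).2 _ (hcD i)
  have hc1 : c n1 + 1 < M n1 := by
    have h1 : c n1 = (D n1).min' (hD n1).1 := by
      rw [hc]
      dsimp only
      rw [if_neg (by omega)]
    obtain ⟨a, ha, b, hb, hab⟩ := Finset.one_lt_card.1 (hcard n1 le_rfl)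
    have h2 := Finset.min'_le (D n1) a ha
    have h3 := Finset.min'_le (D n1) b hb
    have h4 := (hD n1).2 a ha
    have h5 := (hD n1).2 b hb
    rw [← h1] at h2 h3
    omega
  have hc2 : 1 ≤ c (n1 + 1) := by
    have h1 : c (n1 + 1) = (D (n1 + 1)).max' (hD (n1 + 1)).1 := by
      rw [hc]
      dsimp only
      rw [if_pos rfl]
    obtain ⟨a, ha, b, hb, hab⟩ := Finset.one_lt_card.1 (hcard (n1 + 1) (by omega))
    have h2 := Finset.le_max' (D (n1 + 1)) a ha
    have h3 := Finset.le_max' (D (n1 + 1)) b hb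
    rw [← h1] at h2 h3
    omega
  refine ⟨fun i => if i < n1 + 2 then {c i} else D i, ⟨hM, fun n => ?_⟩, ?_, fun n => ?_, n1 + 2,
    fun t ht => ?_⟩
  · dsimp only
    split_ifs
    · refine ⟨Finset.singleton_nonempty _, fun d hd => ?_⟩
      rw [Finset.mem_singleton] at hd
      rw [hd]
      exact hcM n
    · exact hD n
  · refine hFull.congr' ?_
    filter_upwards [eventually_ge_atTop (n1 + 2)] with n hn
    rw [if_neg (by omega)]
  · dsimp only
    split_ifs
    · intro d hd
      rw [Finset.mem_singleton] at hd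
      rw [hd]
      exact hcD n
    · exact fun d hd => hd
  · have h1 := S_eq (c := c) (m := n1 + 2) (D := fun i => if i < n1 + 2 then {c i} else D i)
      (fun i hi => if_pos hi) (n1 + 2) le_rfl t ht
    rw [h1]
    constructor
    · have h2 := P_pos hM (n1 + 1 + 1)
      have h3 : (c (n1 + 1) : ℝ) / P M (n1 + 1 + 1) ≤ pt M c (n1 + 2) := by
        unfold pt
        rw [Finset.sum_range_succ]
        have h4 : (0 : ℝ) ≤ ∑ i ∈ Finset.range (n1 + 1), (c i : ℝ) / P M (i + 1) :=
          Finset.sum_nonneg fun i _ => div_nonneg (Nat.cast_nonneg _) (P_pos hM _).le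
        linarith
      refine lt_of_lt_of_le ?_ h3
      have h5 : (0 : ℝ) < c (n1 + 1) := by exact_mod_cast hc2
      positivity
    · have h2 := upper hM hcM (n1 + 1)
      have h3 := upper' hM hc1
      have h4 := upper_le hM hcM n1
      linarith

end Pool.Agent.Y967.MU.RED
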