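import Pool.Agent.Y967.MU.Stm

set_option autoImplicit false

open Filter Topology

namespace Pool.Agent.Y967.MU.SER

open Pool.Agent.Y249.SU (E)

/-- The complex coefficients of a real trigonometric series. -/
noncomputable def cc (a b : ℕ → ℝ) (z : ℤ) : ℂ :=
  if z = 0 then (a 0 : ℂ)
  else if 0 < z then ((a z.natAbs : ℂ) - (b z.natAbs : ℂ) * Complex.I) / 2
  else ((a z.natAbs : ℂ) + (b z.natAbs : ℂ) * Complex.I) / 2

lemma E_form (n : ℕ) (x : ℝ) : E n x = (Real.cos (2 * Real.pi * n * x) : ℂ) +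
    (Real.sin (2 * Real.pi * n * x) : ℂ) * Complex.I := by
  unfold E
  have h1 : (2 * (Real.pi : ℂ) * Complex.I * ((n : ℤ) : ℂ) * (x : ℂ)) =
      ((2 * Real.pi * n * x : ℝ) : ℂ) * Complex.I := by
    push_cast
    ring
  rw [h1, Complex.exp_mul_I, ← Complex.ofReal_cos, ← Complex.ofReal_sin]

lemma E_form_neg (n : ℕ) (x : ℝ) : E (-(n : ℤ)) x = (Real.cos (2 * Real.pi * n * x) : ℂ) -
    (Real.sin (2 * Real.pi * n * x) : ℂ) * Complex.I := by
  unfold E
  have h1 : (2 * (Real.pi : ℂ) * Complex.I * ((-(n : ℤ) : ℤ) : ℂ) * (x : ℂ)) =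
      ((-(2 * Real.pi * n * x) : ℝ) : ℂ) * Complex.I := by
    push_cast
    ring
  rw [h1, Complex.exp_mul_I, ← Complex.ofReal_cos, ← Complex.ofReal_sin, Real.cos_neg, Real.sin_neg]
  push_cast
  ring

lemma A_cc (a b : ℕ → ℝ) (n : ℕ) (x : ℝ) : Pool.Agent.Y249.SU.A (cc a b) n x =
    ((a n * Real.cos (2 * Real.pi * n * x) + b n * Real.sin (2 * Real.pi * n * x) : ℝ) : ℂ) := by
  unfold Pool.Agent.Y249.SU.A
  split_ifs with h
  · subst h
    simp [cc]
  · have h1 : cc a b (n : ℤ) = ((a n : ℂ) - (b n : ℂ) * Complex.I) / 2 := by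
      unfold cc
      rw [if_neg (by exact_mod_cast h), if_pos (by omega)]
      simp
    have h2 : cc a b (-(n : ℤ)) = ((a n : ℂ) + (b n : ℂ) * Complex.I) / 2 := by
      unfold cc
      rw [if_neg (by simpa using h), if_neg (by omega)]
      simp
    rw [h1, h2, E_form, E_form_neg]
    have hI : Complex.I * Complex.I = -1 := Complex.I_mul_I
    push_cast
    linear_combination (-(b n : ℂ) * (Complex.sin (2 * Real.pi * n * x))) * hI

theorem t_SER : S_SER := by
  intro K hK m hm γ hγ hγ0 hlam hab a b hser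
  obtain ⟨p, q, hp, hpq, hq, hmiss⟩ := hab
  have hc : ∀ x : ℝ, (∀ j : ℤ, x + (j : ℝ) ∉ K) →
      Tendsto (fun N : ℕ => Pool.Agent.Y249.SU.S (cc a b) N x) atTop (𝓝 0) := by
    intro x hx
    set y : ℝ := Int.fract x with hy
    have hxy : x = y + (⌊x⌋ : ℝ) := by rw [hy]; exact (Int.fract_add_floor x).symm
    have hyK : y ∉ K := by
      have h1 := hx (-⌊x⌋)
      have h2 : x + ((-⌊x⌋ : ℤ) : ℝ) = y := by
        push_cast
        linarith
      rwa [h2] at h1
    have h1 := hser y ⟨⟨Int.fract_nonneg x, (Int.fract_lt_one x).le⟩, hyK⟩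
    have h2 := (tendsto_add_atTop_iff_nat 1).mpr h1
    have h3 : Tendsto (fun N : ℕ => ((∑ n ∈ Finset.range (N + 1),
        (a n * Real.cos (2 * Real.pi * n * y) + b n * Real.sin (2 * Real.pi * n * y)) : ℝ) : ℂ))
        atTop (𝓝 ((0 : ℝ) : ℂ)) := (Complex.continuous_ofReal.tendsto 0).comp h2
    rw [Complex.ofReal_zero] at h3
    refine h3.congr fun N => ?_
    rw [Pool.Agent.Y249.SU.S_eq]
    push_cast
    apply Finset.sum_congr rfl
    intro n _
    rw [A_cc]
    have e1 : 2 * Real.pi * n * x = 2 * Real.pi * n * y + ((n * ⌊x⌋ : ℤ) : ℝ) * (2 * Real.pi) := by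
      conv_lhs => rw [hxy]
      push_cast
      ring
    rw [e1, Real.cos_add_int_mul_two_pi, Real.sin_add_int_mul_two_pi]
    push_cast
    rfl
  have hint : ∀ x ∈ Set.Ioo p q, ∀ j : ℤ, x + (j : ℝ) ∉ K := by
    intro x hx j hj
    have h1 := hK hj
    have h2 : (j : ℝ) < 1 := by linarith [h1.2, hx.1]
    have h3 : (-1 : ℝ) < j := by linarith [h1.1, hx.2]
    have h4 : j < 1 := by exact_mod_cast h2
    have h5 : -1 < j := by exact_mod_cast h3
    have h6 : j = 0 := by omega
    rw [h6] at hj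
    simp only [Int.cast_zero, add_zero] at hj
    exact hmiss x hx hj
  have hcz := Pool.Agent.Y249.SU.uniqueness (K := K) (M := m) hm hγ hγ0 hlam hpq hint hc
  have key : ∀ n : ℕ, 1 ≤ n → a n = 0 ∧ b n = 0 := by
    intro n hn
    have h1 := hcz n
    have hn0 : (n : ℤ) ≠ 0 := by omega
    unfold cc at h1
    rw [if_neg hn0, if_pos (by omega), Int.natAbs_natCast] at h1
    have h2 : ((a n : ℂ) - (b n : ℂ) * Complex.I) = 0 := by
      have := div_eq_zero_iff.mp h1
      simpa using this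
    have h3 := congrArg Complex.re h2
    have h4 := congrArg Complex.im h2
    simp at h3 h4
    exact ⟨h3, h4⟩
  refine ⟨fun n => ?_, fun n hn => (key n hn).2⟩
  rcases Nat.eq_zero_or_pos n with h | h
  · subst h
    have h1 := hcz 0
    unfold cc at h1
    rw [if_pos rfl] at h1
    exact_mod_cast h1
  · exact (key n h).1

end Pool.Agent.Y967.MU.SER
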