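import Pool.Agent.Y967.MU.Stm

set_option autoImplicit false

open Filter Topology

namespace Pool.Agent.Y967.MU.UNB

theorem t_UNB : S_UNB := by
  classical
  intro M hM hunb
  have hev : ∀ N B : ℕ, ∃ n, N ≤ n ∧ B ≤ M n := by
    intro N B
    by_contra hcon
    push Not at hcon
    obtain ⟨n, hn⟩ := hunb (B + ∑ i ∈ Finset.range N, M i)
    rcases lt_or_ge n N with h | h
    · have := Finset.single_le_sum (f := M) (fun _ _ => Nat.zero_le _) (Finset.mem_range.mpr h)
      omega
    · have := hcon n h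
      omega
  choose g hg1 hg2 using hev
  let φ : ℕ → ℕ := fun j => Nat.rec (g 0 2) (fun j m => g (m + 1) (j + 3)) j
  have hφs : ∀ j, φ (j + 1) = g (φ j + 1) (j + 3) := fun j => rfl
  have hφ : StrictMono φ := by
    apply strictMono_nat_of_lt_succ
    intro j
    rw [hφs]
    have := hg1 (φ j + 1) (j + 3)
    omega
  have hφM : ∀ j, j + 2 ≤ M (φ j) := by
    intro j
    cases j with
    | zero => exact hg2 0 2
    | succ j =>
      rw [hφs]
      exact hg2 (φ j + 1) (j + 3)
  have hφge : ∀ j, j ≤ φ j := hφ.id_le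
  -- the removed digits
  obtain ⟨r, hr⟩ : ∃ r : ℕ → ℕ, ∀ n : ℕ, (∀ j : ℕ, φ j = n → r n = (M n + j + 1) / (j + 2)) ∧
      ((¬ ∃ j : ℕ, φ j = n) → r n = 0) := by
    have : ∀ n : ℕ, ∃ v : ℕ, (∀ j : ℕ, φ j = n → v = (M n + j + 1) / (j + 2)) ∧
        ((¬ ∃ j : ℕ, φ j = n) → v = 0) := by
      intro n
      rcases Classical.em (∃ j : ℕ, φ j = n) with h | h
      · obtain ⟨j, hj⟩ := h
        refine ⟨(M n + j + 1) / (j + 2), fun i hi => ?_, fun hcon => absurd ⟨j, hj⟩ hcon⟩
        have : i = j := hφ.injective (hi.trans hj.symm)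
        rw [this]
      · exact ⟨0, fun j hj => absurd ⟨j, hj⟩ h, fun _ => rfl⟩
    choose r hr using this
    exact ⟨r, hr⟩
  have hr1 : ∀ j : ℕ, r (φ j) = (M (φ j) + j + 1) / (j + 2) := by
    intro j
    exact (hr (φ j)).1 j rfl
  have hr0 : ∀ n : ℕ, (¬ ∃ j : ℕ, φ j = n) → r n = 0 := by
    intro n h
    exact (hr n).2 h
  have hrlt : ∀ n, r n < M n := by
    intro n
    rcases Classical.em (∃ j : ℕ, φ j = n) with h | h
    · obtain ⟨j, rfl⟩ := h
      rw [hr1, Nat.div_lt_iff_lt_mul (by omega)]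
      have h1 := hM (φ j)
      nlinarith
    · rw [hr0 n h]
      have := hM n
      omega
  have hMr : ∀ n, (0 : ℝ) < M n := fun n => by
    have := hM n
    exact_mod_cast (by omega : 0 < M n)
  have hcard : ∀ n, (((Finset.range (M n - r n)).card : ℕ) : ℝ) / M n = 1 - (r n : ℝ) / M n := by
    intro n
    rw [Finset.card_range, Nat.cast_sub (hrlt n).le, sub_div, div_self (hMr n).ne']
  -- bounds for r
  have hrlow : ∀ j : ℕ, 1 / ((j : ℝ) + 2) ≤ (r (φ j) : ℝ) / M (φ j) := by
    intro j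
    rw [div_le_div_iff₀ (by positivity) (hMr _)]
    have h1 : M (φ j) ≤ r (φ j) * (j + 2) := by
      rw [hr1]
      have := Nat.div_add_mod (M (φ j) + j + 1) (j + 2)
      have h2 := Nat.mod_lt (M (φ j) + j + 1) (show 0 < j + 2 by omega)
      nlinarith
    have h2 : ((M (φ j) : ℕ) : ℝ) ≤ (r (φ j) : ℝ) * ((j : ℝ) + 2) := by exact_mod_cast h1
    linarith
  have hrup : ∀ j : ℕ, (r (φ j) : ℝ) / M (φ j) ≤ 2 / ((j : ℝ) + 2) := by
    intro j
    rw [div_le_div_iff₀ (hMr _) (by positivity)]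
    have h1 : r (φ j) * (j + 2) ≤ 2 * M (φ j) := by
      rw [hr1]
      have h2 := Nat.div_mul_le_self (M (φ j) + j + 1) (j + 2)
      have h3 := hφM j
      omega
    exact_mod_cast h1
  refine ⟨fun n => Finset.range (M n - r n), ⟨hM, fun n => ⟨?_, fun d hd => ?_⟩⟩, ?_, ?_⟩
  · have := hrlt n
    exact ⟨0, by simp; omega⟩
  · rw [Finset.mem_range] at hd
    omega
  · -- Full
    unfold Full
    simp_rw [hcard]
    rw [Metric.tendsto_atTop]
    intro ε hε
    obtain ⟨J, hJ⟩ := exists_nat_gt (2 / ε)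
    refine ⟨φ J, fun n hn => ?_⟩
    rw [Real.dist_eq]
    have e1 : 1 - (r n : ℝ) / M n - 1 = -((r n : ℝ) / M n) := by ring
    rw [e1, abs_neg, abs_of_nonneg (by have := hMr n; positivity)]
    rcases Classical.em (∃ j : ℕ, φ j = n) with h | h
    · obtain ⟨j, rfl⟩ := h
      have hJj : J ≤ j := hφ.le_iff_le.mp hn
      refine (hrup j).trans_lt ?_
      have hJj' : (J : ℝ) ≤ j := by exact_mod_cast hJj
      rw [div_lt_iff₀ hε] at hJ
      rw [div_lt_iff₀ (by positivity)]
      nlinarith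
    · rw [hr0 n h]
      simpa using hε
  · -- Null
    unfold Null
    simp_rw [hcard]
    set p : ℕ → ℝ := fun n => ∏ i ∈ Finset.range n, (1 - (r i : ℝ) / M i) with hp
    have hfac : ∀ i, 0 ≤ 1 - (r i : ℝ) / M i ∧ 1 - (r i : ℝ) / M i ≤ 1 := by
      intro i
      have h1 : (r i : ℝ) / M i ≤ 1 := by
        rw [div_le_one (hMr i)]
        exact_mod_cast (hrlt i).le
      have h2 : 0 ≤ (r i : ℝ) / M i := by
        have := hMr i
        positivity
      constructor <;> linarith
    have hp0 : ∀ n, 0 ≤ p n := fun n => Finset.prod_nonneg fun i _ => (hfac i).1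
    have hanti : Antitone p := by
      apply antitone_nat_of_succ_le
      intro n
      simp only [hp]
      rw [Finset.prod_range_succ]
      exact mul_le_of_le_one_right (hp0 n) (hfac n).2
    have hsub : ∀ J : ℕ, p (φ J) ≤ 1 / ((J : ℝ) + 1) := by
      intro J
      induction J with
      | zero =>
        simp only [Nat.cast_zero, zero_add, div_one]
        exact Finset.prod_le_one (fun i _ => (hfac i).1) (fun i _ => (hfac i).2)
      | succ J ih =>
        have h1 : p (φ (J + 1)) ≤ p (φ J + 1) := hanti (hφ (Nat.lt_succ_self J))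
        have h2 : p (φ J + 1) = p (φ J) * (1 - (r (φ J) : ℝ) / M (φ J)) := by
          simp only [hp]
          rw [Finset.prod_range_succ]
        have h3 := hrlow J
        have h4 : 1 - (r (φ J) : ℝ) / M (φ J) ≤ ((J : ℝ) + 1) / ((J : ℝ) + 2) := by
          have : ((J : ℝ) + 1) / ((J : ℝ) + 2) = 1 - 1 / ((J : ℝ) + 2) := by
            field_simp
            ring
          linarith
        calc p (φ (J + 1)) ≤ p (φ J) * (1 - (r (φ J) : ℝ) / M (φ J)) := h1.trans h2.le
          _ ≤ 1 / ((J : ℝ) + 1) * (((J : ℝ) + 1) / ((J : ℝ) + 2)) :=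
              mul_le_mul ih h4 (hfac _).1 (by positivity)
          _ = 1 / (((J + 1 : ℕ) : ℝ) + 1) := by
              push_cast
              field_simp
              ring
    rw [Metric.tendsto_atTop]
    intro ε hε
    obtain ⟨J, hJ⟩ := exists_nat_one_div_lt hε
    refine ⟨φ J, fun n hn => ?_⟩
    rw [Real.dist_eq, sub_zero, abs_of_nonneg (hp0 n)]
    exact ((hanti hn).trans (hsub J)).trans_lt hJ

end Pool.Agent.Y967.MU.UNB
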