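import Pool.Agent.Y967.MU.VOL

set_option autoImplicit false

open MeasureTheory Filter Topology

namespace Pool.Agent.Y967.MU.VOL2

open Pool.Agent.Y967.MU.MULT Pool.Agent.Y967.MU.VOL

variable {M : ℕ → ℕ} {D : ℕ → Finset ℕ}

lemma Sf_sub (n : ℕ) (t : ℝ) (ht : t ∈ Sf M D n) : t ∈ S M D n := by
  induction n generalizing t with
  | zero => simpa [Sf, S] using ht
  | succ n ih =>
    unfold Sf at ht
    rw [Finset.mem_image] at ht
    obtain ⟨p, hp, rfl⟩ := ht
    rw [Finset.mem_product] at hp
    exact ⟨p.1, ih _ hp.1, p.2, hp.2, rfl⟩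

lemma int_mem (h : Ok M D) (n : ℕ) (t : ℝ) (ht : t ∈ Sf M D n) : ∃ z : ℤ, P M n * t = z := by
  induction n generalizing t with
  | zero =>
    have : t = 0 := by simpa [Sf] using ht
    exact ⟨0, by simp [this]⟩
  | succ n ih =>
    unfold Sf at ht
    rw [Finset.mem_image] at ht
    obtain ⟨p, hp, rfl⟩ := ht
    rw [Finset.mem_product] at hp
    obtain ⟨z, hz⟩ := ih _ hp.1
    refine ⟨M n * z + p.2, ?_⟩
    have hP1 := (P_pos h (n + 1)).ne'
    rw [mul_add, mul_div_cancel₀ _ hP1, P_succ, mul_comm (P M n) (M n : ℝ), mul_assoc, hz]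
    push_cast
    ring

lemma card_eq (h : Ok M D) (n : ℕ) :
    ((Sf M D n).card : ℝ) = ∏ i ∈ Finset.range n, ((D i).card : ℝ) := by
  induction n with
  | zero => simp [Sf]
  | succ n ih =>
    have hS : Sf M D (n + 1) =
      (Sf M D n ×ˢ D n).image (fun p => p.1 + (p.2 : ℝ) / P M (n + 1)) := rfl
    rw [Finset.prod_range_succ, ← ih, hS]
    rw [Finset.card_image_of_injOn, Finset.card_product]
    · push_cast
      rfl
    · rintro ⟨x, d⟩ hx ⟨x', d'⟩ hx' hxx
      rw [Finset.mem_coe, Finset.mem_product] at hx hx'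
      simp only at hx hx' hxx
      obtain ⟨z, hz⟩ := int_mem h n x hx.1
      obtain ⟨z', hz'⟩ := int_mem h n x' hx'.1
      have hP := P_pos h n
      have hP1 := P_pos h (n + 1)
      have hM := M_ge h n
      have h1 := D_lt h n hx.2
      have h2 := D_lt h n hx'.2
      have h3 : P M (n + 1) * (x + (d : ℝ) / P M (n + 1)) =
          P M (n + 1) * (x' + (d' : ℝ) / P M (n + 1)) := by rw [hxx]
      rw [mul_add, mul_add, mul_div_cancel₀ _ hP1.ne', mul_div_cancel₀ _ hP1.ne', P_succ] at h3
      have h4 : (M n : ℝ) * z + d = (M n : ℝ) * z' + d' := by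
        rw [← hz, ← hz']
        linarith
      have h5 : (M n : ℤ) * z + d = (M n : ℤ) * z' + d' := by exact_mod_cast h4
      have h6 : (d : ℤ) < M n := by exact_mod_cast (h.2 n).2 d hx.2
      have h7 : (d' : ℤ) < M n := by exact_mod_cast (h.2 n).2 d' hx'.2
      have h8 : z = z' := by
        have a1 : ((M n : ℤ) * z + d) / M n = z := by
          rw [Int.mul_add_ediv_left _ _ (by omega)]
          rw [Int.ediv_eq_zero_of_lt (by omega) h6]
          ring
        have a2 : ((M n : ℤ) * z' + d') / M n = z' := by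
          rw [Int.mul_add_ediv_left _ _ (by omega)]
          rw [Int.ediv_eq_zero_of_lt (by omega) h7]
          ring
        rw [← a1, ← a2, h5]
      have h9 : x = x' := by
        have : P M n * x = P M n * x' := by rw [hz, hz', h8]
        exact mul_left_cancel₀ hP.ne' this
      rw [h8] at h5
      have h10 : d = d' := by
        have : (d : ℤ) = d' := by linarith
        exact_mod_cast this
      rw [h9, h10]

/-- The level `n` cover. -/
def EE (M : ℕ → ℕ) (D : ℕ → Finset ℕ) (n : ℕ) : Set ℝ := ⋃ t ∈ Sf M D n, Set.Icc t (t + 1 / P M n)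

lemma EE_anti (h : Ok M D) : Antitone (EE M D) := by
  apply antitone_nat_of_succ_le
  intro n x hx
  unfold EE at hx ⊢
  rw [Set.mem_iUnion₂] at hx ⊢
  obtain ⟨t, ht, hx1, hx2⟩ := hx
  unfold Sf at ht
  rw [Finset.mem_image] at ht
  obtain ⟨⟨y, d⟩, hp, rfl⟩ := ht
  rw [Finset.mem_product] at hp
  simp only at hp hx1 hx2
  have hP := P_pos h n
  have hP1 := P_pos h (n + 1)
  refine ⟨y, hp.1, ?_, ?_⟩
  · have : (0 : ℝ) ≤ (d : ℝ) / P M (n + 1) := by positivity
    linarith
  · have h1 : (d : ℝ) / P M (n + 1) + 1 / P M (n + 1) ≤ 1 / P M n := by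
      rw [← add_div, div_le_div_iff₀ hP1 hP, P_succ]
      have h2 := D_lt h n hp.2
      nlinarith
    linarith

lemma inter_sub (h : Ok M D) : ⋂ n, EE M D n ⊆ moranSet M D := by
  intro x hx
  rw [Set.mem_iInter] at hx
  have hcl : IsClosed (moranSet M D) := (KK_compact h).isClosed
  have h1 : ∀ n, ∃ y ∈ moranSet M D, |x - y| ≤ 2 * (1 / P M n) := by
    intro n
    have h2 := hx n
    unfold EE at h2
    rw [Set.mem_iUnion₂] at h2
    obtain ⟨t, ht, hx1, hx2⟩ := h2
    obtain ⟨y, hy, hty⟩ := S_near h n t (Sf_sub n t ht)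
    refine ⟨y, hy, ?_⟩
    have h3 := abs_sub_le x t y
    have h4 : |x - t| ≤ 1 / P M n := by
      rw [abs_of_nonneg (by linarith)]
      linarith
    linarith
  choose y hy hxy using h1
  have h2 : Tendsto y atTop (𝓝 x) := by
    rw [tendsto_iff_dist_tendsto_zero]
    have h3 := (tendsto_inv_P h).const_mul 2
    rw [mul_zero] at h3
    refine squeeze_zero (fun _ => dist_nonneg) (fun n => ?_) h3
    rw [dist_comm, Real.dist_eq]
    exact hxy n
  exact hcl.mem_of_tendsto h2 (Eventually.of_forall hy)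

lemma EE_meas (n : ℕ) : MeasurableSet (EE M D n) :=
  Finset.measurableSet_biUnion _ fun _ _ => measurableSet_Icc

lemma EE_low (h : Ok M D) (n : ℕ) :
    ENNReal.ofReal (∏ i ∈ Finset.range n, (((D i).card : ℝ) / (M i : ℝ))) ≤ volume (EE M D n) := by
  have hP := P_pos h n
  have h1 : volume (⋃ t ∈ Sf M D n, Set.Ioo t (t + 1 / P M n)) =
      ∑ t ∈ Sf M D n, volume (Set.Ioo t (t + 1 / P M n)) := by
    apply measure_biUnion_finset
    · intro t ht t' ht' htt
      rw [Function.onFun, Set.disjoint_left]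
      rintro x ⟨hx1, hx2⟩ ⟨hx3, hx4⟩
      obtain ⟨z, hz⟩ := int_mem h n t ht
      obtain ⟨z', hz'⟩ := int_mem h n t' ht'
      apply htt
      have h2 : t - t' < 1 / P M n := by linarith
      have h3 : t' - t < 1 / P M n := by linarith
      rw [lt_div_iff₀ hP] at h2 h3
      have h4 : (z : ℝ) - z' < 1 := by rw [← hz, ← hz']; linarith
      have h5 : (z' : ℝ) - z < 1 := by rw [← hz, ← hz']; linarith
      have h6 : z - z' < 1 := by exact_mod_cast h4
      have h7 : z' - z < 1 := by exact_mod_cast h5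
      have h8 : z = z' := by omega
      have : P M n * t = P M n * t' := by rw [hz, hz', h8]
      exact mul_left_cancel₀ hP.ne' this
    · intro t _
      exact measurableSet_Ioo
  calc ENNReal.ofReal (∏ i ∈ Finset.range n, (((D i).card : ℝ) / (M i : ℝ)))
      = ENNReal.ofReal ((Sf M D n).card * (1 / P M n)) := by
        rw [Finset.prod_div_distrib, card_eq h n, mul_one_div]
        rfl
    _ = ∑ t ∈ Sf M D n, ENNReal.ofReal (1 / P M n) := by
        rw [Finset.sum_const, nsmul_eq_mul, ENNReal.ofReal_mul (by positivity)]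
        simp
    _ = ∑ t ∈ Sf M D n, volume (Set.Ioo t (t + 1 / P M n)) := by
        apply Finset.sum_congr rfl
        intro t _
        rw [Real.volume_Ioo]
        congr 1
        ring
    _ = volume (⋃ t ∈ Sf M D n, Set.Ioo t (t + 1 / P M n)) := h1.symm
    _ ≤ volume (EE M D n) := by
        apply measure_mono
        unfold EE
        exact Set.iUnion₂_mono fun t _ => Set.Ioo_subset_Icc_self

theorem t_VOL2 (M : ℕ → ℕ) (D : ℕ → Finset ℕ) (h : Ok M D) (hv : volume (moranSet M D) = 0) :
    Null M D := by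
  have h0 : volume (⋂ n, EE M D n) = 0 := measure_mono_null (inter_sub h) hv
  have h1 : Tendsto (fun n => volume (EE M D n)) atTop (𝓝 (volume (⋂ n, EE M D n))) := by
    apply tendsto_measure_iInter_atTop (fun n => (EE_meas n).nullMeasurableSet) (EE_anti h)
    refine ⟨0, ?_⟩
    have h2 : EE M D 0 = Set.Icc 0 1 := by
      unfold EE
      simp [Sf, P_zero]
    rw [h2, Real.volume_Icc]
    exact ENNReal.ofReal_ne_top
  rw [h0] at h1
  unfold Null
  have h2 : Tendsto (fun n => ENNReal.ofReal (∏ i ∈ Finset.range n,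
      (((D i).card : ℝ) / (M i : ℝ)))) atTop (𝓝 0) :=
    tendsto_of_tendsto_of_tendsto_of_le_of_le tendsto_const_nhds h1 (fun _ => bot_le) (EE_low h)
  have h3 := (ENNReal.tendsto_toReal ENNReal.zero_ne_top).comp h2
  simp only [ENNReal.toReal_zero] at h3
  refine h3.congr fun n => ?_
  simp only [Function.comp_apply]
  apply ENNReal.toReal_ofReal
  exact Finset.prod_nonneg fun i _ => by positivity

end Pool.Agent.Y967.MU.VOL2
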