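import Pool.Agent.Y967.MU.MULTA

set_option autoImplicit false

open MeasureTheory Filter Topology

namespace Pool.Agent.Y967.MU.MULT

variable {M : ℕ → ℕ} {D : ℕ → Finset ℕ}

/-! ### The Dirichlet kernel -/

noncomputable def DN (N : ℕ) (s : ℝ) : ℝ :=
  1 + 2 * ∑ k ∈ Finset.range N, Real.cos (2 * Real.pi * ((k : ℝ) + 1) * s)

lemma DN_mul (N : ℕ) (s : ℝ) :
    Real.sin (Real.pi * s) * DN N s = Real.sin ((2 * N + 1) * (Real.pi * s)) := by
  induction N with
  | zero => simp [DN]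
  | succ N ih =>
    have h1 : DN (N + 1) s = DN N s + 2 * Real.cos (2 * Real.pi * ((N : ℝ) + 1) * s) := by
      unfold DN
      rw [Finset.sum_range_succ]
      ring
    rw [h1, mul_add, ih]
    have e1 : (2 * (N : ℝ) + 1) * (Real.pi * s) = 2 * Real.pi * ((N : ℝ) + 1) * s - Real.pi * s := by
      ring
    have e2 : (2 * ((N + 1 : ℕ) : ℝ) + 1) * (Real.pi * s) =
        2 * Real.pi * ((N : ℝ) + 1) * s + Real.pi * s := by
      push_cast
      ring
    rw [e1, e2, Real.sin_sub, Real.sin_add]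
    ring

/-- the multiplier -/
noncomputable def mul (η : ℝ) (s : ℝ) : ℝ :=
  Real.cos (Real.pi * s) * Real.sin (Real.pi * s) / max (Real.sin (Real.pi * s) ^ 2) η

lemma DN_eq {η : ℝ} (hη : 0 < η) (N : ℕ) (s : ℝ) (h : η ≤ Real.sin (Real.pi * s) ^ 2) :
    DN N s = Real.cos (2 * Real.pi * N * s) + Real.sin (2 * Real.pi * N * s) * mul η s := by
  have h1 := DN_mul N s
  have h2 : Real.sin ((2 * N + 1) * (Real.pi * s)) =
      Real.sin (2 * Real.pi * N * s) * Real.cos (Real.pi * s) +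
      Real.cos (2 * Real.pi * N * s) * Real.sin (Real.pi * s) := by
    rw [← Real.sin_add]
    congr 1
    ring
  have hs : Real.sin (Real.pi * s) ≠ 0 := by
    intro h0
    rw [h0] at h
    norm_num at h
    linarith
  unfold mul
  rw [max_eq_left h]
  rw [h2] at h1
  field_simp
  nlinarith [h1]

lemma mul_periodic (η : ℝ) : Function.Periodic (mul η) 1 := by
  intro s
  unfold mul
  have : Real.pi * (s + 1) = Real.pi * s + Real.pi := by ring
  rw [this, Real.cos_add_pi, Real.sin_add_pi]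
  congr 1
  · ring
  · congr 1
    ring

lemma mul_continuous {η : ℝ} (hη : 0 < η) : Continuous (mul η) := by
  unfold mul
  apply Continuous.div
  · fun_prop
  · fun_prop
  · intro s
    have : 0 < max (Real.sin (Real.pi * s) ^ 2) η := lt_max_of_lt_right hη
    exact this.ne'

/-- `t ↦ mul η (x - t)` on the circle -/
noncomputable def gg {η : ℝ} (hη : 0 < η) (x : ℝ) : C(AddCircle (1 : ℝ), ℂ) where
  toFun := Function.Periodic.lift (f := fun t : ℝ => ((mul η (x - t) : ℝ) : ℂ)) (c := 1) (by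
    intro t
    have h := mul_periodic η (x - (t + 1))
    have h2 : x - (t + 1) + 1 = x - t := by ring
    rw [h2] at h
    simp only
    rw [h])
  continuous_toFun := by
    apply continuous_quot_lift
    have := mul_continuous hη
    fun_prop

lemma gg_apply {η : ℝ} (hη : 0 < η) (x t : ℝ) :
    gg hη x (t : AddCircle (1 : ℝ)) = ((mul η (x - t) : ℝ) : ℂ) := rfl

lemma A_re (n : ℕ) (f : ℝ → ℂ) : A M D n (fun t => (f t).re) = (A M D n f).re :=
  A_map Complex.reLm n f

lemma A_im (n : ℕ) (f : ℝ → ℂ) : A M D n (fun t => (f t).im) = (A M D n f).im :=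
  A_map Complex.imLm n f

/-- the averaged Dirichlet kernel tends to zero off the limit set -/
lemma DN_small (hok : Ok M D) (hS : Small M D) (x η : ℝ) (hη : 0 < η) (n₀ : ℕ)
    (hsep : ∀ n, n₀ ≤ n → ∀ t ∈ S M D n, η ≤ Real.sin (Real.pi * (x - t)) ^ 2)
    (ε : ℝ) (hε : 0 < ε) :
    ∃ N₀ : ℕ, ∀ N, N₀ ≤ N → ∀ᶠ n in atTop, |A M D n (fun t => DN N (x - t))| ≤ ε := by
  obtain ⟨K1, hK1⟩ := hS (ε / 2) (by positivity)
  obtain ⟨K2, hK2⟩ := good_all hok hS (gg hη x) (ε / 2) (by positivity)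
  refine ⟨max K1 K2, fun N hN => ?_⟩
  have hk1 : K1 ≤ (-(N : ℤ)).natAbs := by
    have := (le_max_left K1 K2).trans hN
    omega
  have hk2 : K2 ≤ (-(N : ℤ)).natAbs := by
    have := (le_max_right K1 K2).trans hN
    omega
  filter_upwards [hK1 _ hk1, hK2 _ hk2, eventually_ge_atTop n₀] with n h1 h2 hn
  have e1 : A M D n (fun t => DN N (x - t)) =
      A M D n (fun t => (e N x * e (-(N : ℤ)) t).re +
        (e N x * (gg hη x (t : AddCircle (1 : ℝ)) * e (-(N : ℤ)) t)).im) := by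
    apply A_congr
    intro t ht
    rw [DN_eq hη N (x - t) (hsep n hn t ht), gg_apply]
    have h3 : e N x * e (-(N : ℤ)) t = Complex.exp (((2 * Real.pi * N * (x - t) : ℝ) : ℂ) *
        Complex.I) := by
      rw [e_eq, e_eq, ← Complex.exp_add]
      congr 1
      push_cast
      ring
    have h4 : e N x * (((mul η (x - t) : ℝ) : ℂ) * e (-(N : ℤ)) t) =
        ((mul η (x - t) : ℝ) : ℂ) * (e N x * e (-(N : ℤ)) t) := by ring
    rw [h4, h3, Complex.exp_ofReal_mul_I_re, Complex.im_ofReal_mul, Complex.exp_ofReal_mul_I_im]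
    ring
  rw [e1, A_add, A_re, A_im, A_const_mul, A_const_mul]
  have h5 := Complex.abs_re_le_norm (e N x * A M D n (e (-(N : ℤ))))
  have h6 := Complex.abs_im_le_norm (e N x * A M D n (fun t : ℝ =>
    gg hη x (t : AddCircle (1 : ℝ)) * e (-(N : ℤ)) t))
  rw [norm_mul, norm_e, one_mul] at h5 h6
  have h7 := abs_add_le (e N x * A M D n (e (-(N : ℤ)))).re (e N x * A M D n (fun t : ℝ =>
    gg hη x (t : AddCircle (1 : ℝ)) * e (-(N : ℤ)) t)).im
  have h8 : A M D n (fun t => e (-(N : ℤ)) t) = A M D n (e (-(N : ℤ))) := rfl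
  rw [h8]
  linarith

/-! ### The limit set -/

lemma KK_def : moranSet M D = {x | ∃ d : ℕ → ℕ, (∀ n, d n ∈ D n) ∧
    HasSum (fun n => (d n : ℝ) / P M (n + 1)) x} := rfl

noncomputable def term (M : ℕ → ℕ) (n : ℕ) (d : ℕ → ℕ) : ℝ :=
  ((min (d n) (M n) : ℕ) : ℝ) / P M (n + 1)

lemma term_bound (h : Ok M D) (n : ℕ) (d : ℕ → ℕ) : ‖term M n d‖ ≤ (1 / 2 : ℝ) ^ n := by
  unfold term
  have hP := P_pos h n
  have hP1 := P_pos h (n + 1)
  rw [Real.norm_of_nonneg (by positivity)]
  have h1 : ((min (d n) (M n) : ℕ) : ℝ) ≤ (M n : ℝ) := by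
    exact_mod_cast min_le_right _ _
  calc ((min (d n) (M n) : ℕ) : ℝ) / P M (n + 1) ≤ 1 / P M n := by
        rw [div_le_div_iff₀ hP1 hP, P_succ]
        nlinarith
    _ ≤ (1 / 2 : ℝ) ^ n := by
        rw [div_pow, one_pow]
        exact one_div_le_one_div_of_le (by positivity) (P_ge h n)

lemma summ_geo : Summable (fun n : ℕ => (1 / 2 : ℝ) ^ n) :=
  summable_geometric_of_lt_one (by norm_num) (by norm_num)

lemma term_cont (h : Ok M D) : Continuous (fun d : ℕ → ℕ => ∑' n, term M n d) := by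
  apply continuous_tsum (u := fun n : ℕ => (1 / 2 : ℝ) ^ n) _ summ_geo (term_bound h)
  intro n
  have : term M n = (fun j : ℕ => ((min j (M n) : ℕ) : ℝ) / P M (n + 1)) ∘
    (fun d : ℕ → ℕ => d n) := rfl
  rw [this]
  exact continuous_of_discreteTopology.comp (continuous_apply n)

lemma term_eq (h : Ok M D) {d : ℕ → ℕ} (hd : ∀ n, d n ∈ D n) (n : ℕ) :
    term M n d = (d n : ℝ) / P M (n + 1) := by
  unfold term
  rw [min_eq_left ((h.2 n).2 _ (hd n)).le]

lemma hasSum_digits (h : Ok M D) {d : ℕ → ℕ} (hd : ∀ n, d n ∈ D n) :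
    HasSum (fun n => (d n : ℝ) / P M (n + 1)) (∑' n, term M n d) := by
  have h1 : Summable (fun n => term M n d) :=
    Summable.of_norm_bounded summ_geo (fun n => term_bound h n d)
  have h2 := h1.hasSum
  simp_rw [term_eq h hd] at h2 ⊢
  exact h2

lemma KK_compact (h : Ok M D) : IsCompact (moranSet M D) := by
  have h1 : moranSet M D =
      (fun d : ℕ → ℕ => ∑' n, term M n d) '' (Set.pi Set.univ fun n => (D n : Set ℕ)) := by
    ext x
    constructor
    · rintro ⟨d, hd, hs⟩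
      refine ⟨d, fun n _ => hd n, ?_⟩
      exact (hasSum_digits h hd).unique hs
    · rintro ⟨d, hd, rfl⟩
      exact ⟨d, fun n => hd n trivial, hasSum_digits h fun n => hd n trivial⟩
  rw [h1]
  apply IsCompact.image _ (term_cont h)
  exact isCompact_univ_pi fun n => (D n).finite_toSet.isCompact

lemma upper_anti (h : Ok M D) {d : ℕ → ℕ} (hd : ∀ n, d n ∈ D n) :
    Antitone (fun n => ∑ i ∈ Finset.range n, (d i : ℝ) / P M (i + 1) + 1 / P M n) := by
  apply antitone_nat_of_succ_le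
  intro n
  rw [Finset.sum_range_succ]
  have h1 : (d n : ℝ) / P M (n + 1) + 1 / P M (n + 1) ≤ 1 / P M n := by
    have hP := P_pos h n
    have hP1 := P_pos h (n + 1)
    rw [← add_div, div_le_div_iff₀ hP1 hP, P_succ]
    have h2 := D_lt h n (hd n)
    nlinarith
  linarith

lemma tendsto_inv_P (h : Ok M D) : Tendsto (fun n => 1 / P M n) atTop (𝓝 0) := by
  have h1 : Tendsto (fun n : ℕ => (1 / 2 : ℝ) ^ n) atTop (𝓝 0) :=
    tendsto_pow_atTop_nhds_zero_of_lt_one (by norm_num) (by norm_num)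
  refine squeeze_zero (fun n => by have := P_pos h n; positivity) (fun n => ?_) h1
  rw [div_pow, one_pow]
  exact one_div_le_one_div_of_le (by positivity) (P_ge h n)

lemma point_near (h : Ok M D) {d : ℕ → ℕ} (hd : ∀ n, d n ∈ D n) {x : ℝ}
    (hx : HasSum (fun n => (d n : ℝ) / P M (n + 1)) x) (n : ℕ) :
    ∑ i ∈ Finset.range n, (d i : ℝ) / P M (i + 1) ≤ x ∧
      x ≤ ∑ i ∈ Finset.range n, (d i : ℝ) / P M (i + 1) + 1 / P M n := by
  constructor
  · apply sum_le_hasSum _ _ hx
    intro i _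
    have := P_pos h (i + 1)
    positivity
  · have h1 := hx.tendsto_sum_nat.add (tendsto_inv_P h)
    rw [add_zero] at h1
    exact (upper_anti h hd).le_of_tendsto h1 n

/-- every level `n` point is `1 / P n`-close to the limit set -/
lemma S_near (h : Ok M D) (n : ℕ) (t : ℝ) (ht : t ∈ S M D n) :
    ∃ x ∈ moranSet M D, |t - x| ≤ 1 / P M n := by
  have h1 : ∀ n t, t ∈ S M D n → ∃ d : ℕ → ℕ, (∀ i, d i ∈ D i) ∧
      t = ∑ i ∈ Finset.range n, (d i : ℝ) / P M (i + 1) := by
    intro n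
    induction n with
    | zero =>
      intro t ht
      refine ⟨fun i => (h.2 i).1.choose, fun i => (h.2 i).1.choose_spec, ?_⟩
      have : t = 0 := ht
      simp [this]
    | succ n ih =>
      rintro t ⟨y, hy, b, hb, rfl⟩
      obtain ⟨d, hd, rfl⟩ := ih y hy
      refine ⟨fun i => if i = n then b else d i, fun i => ?_, ?_⟩
      · by_cases h : i = n
        · simp only [h, if_true]
          exact hb
        · simp only [h, if_false]
          exact hd i
      · rw [Finset.sum_range_succ]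
        simp only [if_true]
        congr 1
        apply Finset.sum_congr rfl
        intro i hi
        have : i ≠ n := (Finset.mem_range.mp hi).ne
        simp [this]
  obtain ⟨d, hd, rfl⟩ := h1 n t ht
  have hs := hasSum_digits h hd
  refine ⟨_, ⟨d, hd, hs⟩, ?_⟩
  have h := point_near h hd hs n
  rw [abs_le]
  constructor <;> linarith

lemma S_range (h : Ok M D) {j : ℕ} {δ : ℝ} (hj : ∀ t ∈ S M D j, δ ≤ t ∧ t + 1 / P M j ≤ 1 - δ)
    (n : ℕ) (hn : j ≤ n) (t : ℝ) (ht : t ∈ S M D n) : δ ≤ t ∧ t + 1 / P M n ≤ 1 - δ := by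
  induction n, hn using Nat.le_induction generalizing t with
  | base => exact hj t ht
  | succ n hn ih =>
    obtain ⟨y, hy, d, hd, rfl⟩ := ht
    have h' := ih y hy
    have hP := P_pos h n
    have hP1 := P_pos h (n + 1)
    constructor
    · have : (0 : ℝ) ≤ (d : ℝ) / P M (n + 1) := by positivity
      linarith [h'.1]
    · have h1 : (d : ℝ) / P M (n + 1) + 1 / P M (n + 1) ≤ 1 / P M n := by
        rw [← add_div, div_le_div_iff₀ hP1 hP, P_succ]
        have h2 := D_lt h n hd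
        nlinarith
      linarith [h'.2]

lemma S_finite (n : ℕ) : (S M D n).Finite := by
  induction n with
  | zero => exact Set.finite_singleton 0
  | succ n ih =>
    have : S M D (n + 1) ⊆ (fun p : ℝ × ℕ => p.1 + (p.2 : ℝ) / P M (n + 1)) ''
        (S M D n ×ˢ (D n : Set ℕ)) := by
      rintro y ⟨x, hx, d, hd, rfl⟩
      exact ⟨(x, d), ⟨hx, hd⟩, rfl⟩
    exact ((ih.prod (D n).finite_toSet).image _).subset this

lemma exists_delta (h : Ok M D) {j : ℕ} (hj : ∀ t ∈ S M D j, 0 < t ∧ t + 1 / P M j < 1) :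
    ∃ δ : ℝ, 0 < δ ∧ ∀ t ∈ S M D j, δ ≤ t ∧ t + 1 / P M j ≤ 1 - δ := by
  have hfin := S_finite (M := M) (D := D) j
  have hne : (S M D j).Nonempty := by
    have : ∀ n, (S M D n).Nonempty := by
      intro n
      induction n with
      | zero => exact ⟨0, rfl⟩
      | succ n ih =>
        obtain ⟨x, hx⟩ := ih
        obtain ⟨d, hd⟩ := (h.2 n).1
        exact ⟨_, x, hx, d, hd, rfl⟩
    exact this j
  obtain ⟨a, ha, ha'⟩ := Set.exists_min_image _ (fun t : ℝ => t) hfin hne
  obtain ⟨b, hb, hb'⟩ := Set.exists_max_image _ (fun t : ℝ => t) hfin hne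
  have h1 := hj a ha
  have h2 := hj b hb
  refine ⟨min a (1 - (b + 1 / P M j)), lt_min h1.1 (by linarith), fun t ht => ⟨?_, ?_⟩⟩
  · exact (min_le_left _ _).trans (ha' t ht)
  · have h3 := hb' t ht
    have h4 := min_le_right a (1 - (b + 1 / P M j))
    linarith

lemma sep (h : Ok M D) {j : ℕ} (hj : ∀ t ∈ S M D j, 0 < t ∧ t + 1 / P M j < 1)
    (x : ℝ) (hx0 : 0 ≤ x) (hx1 : x ≤ 1) (hx : x ∉ moranSet M D) : ∃ η : ℝ, 0 < η ∧ ∃ n₀ : ℕ,
    ∀ n, n₀ ≤ n → ∀ t ∈ S M D n, η ≤ Real.sin (Real.pi * (x - t)) ^ 2 := by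
  obtain ⟨c, hc0, hc⟩ := exists_delta h hj
  have hcl : IsClosed (moranSet M D) := (KK_compact h).isClosed
  have hne : (moranSet M D).Nonempty := by
    obtain ⟨y, hy, _⟩ := S_near h 0 0 rfl
    exact ⟨y, hy⟩
  have hpos : 0 < Metric.infDist x (moranSet M D) := (hcl.notMem_iff_infDist_pos hne).mp hx
  set δ := Metric.infDist x (moranSet M D) with hδ
  have hev : ∀ᶠ n in atTop, 1 / P M n < δ / 2 :=
    (tendsto_inv_P h).eventually (gt_mem_nhds (by positivity))
  obtain ⟨n₁, hn₁⟩ := eventually_atTop.mp hev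
  set m := min (δ / 2) (min c (1 / 2 : ℝ)) with hm
  have hm0 : 0 < m := by positivity
  refine ⟨(2 * m) ^ 2, by positivity, max n₁ j, fun n hn t ht => ?_⟩
  have hn1 : n₁ ≤ n := (le_max_left _ _).trans hn
  have hn2 : j ≤ n := (le_max_right _ _).trans hn
  obtain ⟨y, hy, hty⟩ := S_near h n t ht
  have h1 : δ ≤ |x - y| := by
    have := Metric.infDist_le_dist_of_mem (x := x) hy
    rwa [Real.dist_eq] at this
  have h2 := hn₁ n hn1
  have h3 : δ / 2 ≤ |x - t| := by
    have := abs_sub_le x t y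
    linarith
  have h4 := S_range h hc n hn2 t ht
  have hP := P_pos h n
  have hPi : 0 < 1 / P M n := by positivity
  have h5 : |x - t| ≤ 1 - c := by
    rw [abs_le]
    constructor <;> linarith
  have hs : Real.sin (Real.pi * (x - t)) ^ 2 = Real.sin (Real.pi * |x - t|) ^ 2 := by
    rcases abs_cases (x - t) with ⟨h, _⟩ | ⟨h, _⟩
    · rw [h]
    · rw [h, mul_neg, Real.sin_neg, neg_sq]
  rw [hs]
  apply pow_le_pow_left₀ (by positivity)
  have h8 : m ≤ c := (min_le_right _ _).trans (min_le_left _ _)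
  have h9 : m ≤ 1 / 2 := (min_le_right _ _).trans (min_le_right _ _)
  rcases le_or_gt |x - t| (1 / 2) with h6 | h6
  · have := sin_low (abs_nonneg (x - t)) h6
    have h7 : m ≤ δ / 2 := min_le_left _ _
    linarith
  · have h7 : Real.sin (Real.pi * |x - t|) = Real.sin (Real.pi * (1 - |x - t|)) := by
      rw [mul_sub, mul_one, Real.sin_pi_sub]
    rw [h7]
    have := sin_low (y := 1 - |x - t|) (by linarith) (by linarith)
    linarith

/-! ### The series -/

lemma ex_cos (h : Ok M D) (k : ℕ) :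
    ∃ z : ℝ, Tendsto (fun n => A M D n (fun t : ℝ => Real.cos (2 * Real.pi * k * t)))
    atTop (𝓝 z) := by
  apply A_conv h _ (2 * Real.pi * k) (by positivity)
  intro x y
  rw [Real.norm_eq_abs]
  refine (Real.abs_cos_sub_cos_le _ _).trans ?_
  rw [← mul_sub, abs_mul, abs_of_nonneg (by positivity : (0 : ℝ) ≤ 2 * Real.pi * k)]

lemma ex_sin (h : Ok M D) (k : ℕ) :
    ∃ z : ℝ, Tendsto (fun n => A M D n (fun t : ℝ => Real.sin (2 * Real.pi * k * t)))
    atTop (𝓝 z) := by
  apply A_conv h _ (2 * Real.pi * k) (by positivity)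
  intro x y
  rw [Real.norm_eq_abs]
  refine (Real.abs_sin_sub_sin_le _ _).trans ?_
  rw [← mul_sub, abs_mul, abs_of_nonneg (by positivity : (0 : ℝ) ≤ 2 * Real.pi * k)]

lemma A_real_mul (n : ℕ) (c : ℝ) (f : ℝ → ℝ) : A M D n (fun t => c * f t) = c * A M D n f := by
  have h := A_map (M := M) (D := D) (LinearMap.mulLeft ℝ c : ℝ →ₗ[ℝ] ℝ) n f
  simpa using h

lemma A_one (h : Ok M D) (n : ℕ) : A M D n (fun _ : ℝ => (1 : ℝ)) = 1 := by
  induction n with
  | zero => rfl
  | succ n ih =>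
    rw [A_suc, ih, Finset.sum_const]
    have := (card_pos h n).ne'
    simp only [nsmul_eq_mul, mul_one, smul_eq_mul]
    field_simp

theorem main (h : Ok M D) (hS : Small M D) {j : ℕ}
    (hj : ∀ t ∈ S M D j, 0 < t ∧ t + 1 / P M j < 1) : ∃ a b : ℕ → ℝ, a 0 = 1 ∧
    ∀ x ∈ Set.Icc (0 : ℝ) 1 \ moranSet M D, Tendsto (fun N : ℕ => ∑ n ∈ Finset.range N,
      (a n * Real.cos (2 * Real.pi * n * x) + b n * Real.sin (2 * Real.pi * n * x))) atTop (𝓝 0) := by
  choose ca hca using ex_cos h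
  choose sa hsa using ex_sin h
  refine ⟨fun n => if n = 0 then 1 else 2 * ca n, fun n => 2 * sa n, by simp, ?_⟩
  rintro x ⟨hx01, hx⟩
  obtain ⟨η, hη, n₀, hsep⟩ := sep h hj x hx01.1 hx01.2 hx
  rw [← tendsto_add_atTop_iff_nat 1]
  -- partial sums are limits of averages of the Dirichlet kernel
  have hlim : ∀ N : ℕ, Tendsto (fun n => A M D n (fun t => DN N (x - t))) atTop
      (𝓝 (∑ n ∈ Finset.range (N + 1), ((if n = 0 then 1 else 2 * ca n) *
        Real.cos (2 * Real.pi * n * x) + (2 * sa n) * Real.sin (2 * Real.pi * n * x)))) := by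
    intro N
    have h1 : ∀ n, A M D n (fun t => DN N (x - t)) = 1 + ∑ k ∈ Finset.range N,
        ((2 * Real.cos (2 * Real.pi * ((k + 1 : ℕ) : ℝ) * x)) *
            A M D n (fun t : ℝ => Real.cos (2 * Real.pi * ((k + 1 : ℕ) : ℝ) * t)) +
          (2 * Real.sin (2 * Real.pi * ((k + 1 : ℕ) : ℝ) * x)) *
            A M D n (fun t : ℝ => Real.sin (2 * Real.pi * ((k + 1 : ℕ) : ℝ) * t))) := by
      intro n
      have h2 : (fun t => DN N (x - t)) = fun t => 1 + ∑ k ∈ Finset.range N,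
          ((2 * Real.cos (2 * Real.pi * ((k + 1 : ℕ) : ℝ) * x)) *
              Real.cos (2 * Real.pi * ((k + 1 : ℕ) : ℝ) * t) +
            (2 * Real.sin (2 * Real.pi * ((k + 1 : ℕ) : ℝ) * x)) *
              Real.sin (2 * Real.pi * ((k + 1 : ℕ) : ℝ) * t)) := by
        funext t
        unfold DN
        rw [Finset.mul_sum]
        congr 1
        apply Finset.sum_congr rfl
        intro k _
        have : 2 * Real.pi * ((k : ℝ) + 1) * (x - t) = 2 * Real.pi * ((k + 1 : ℕ) : ℝ) * x -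
            2 * Real.pi * ((k + 1 : ℕ) : ℝ) * t := by
          push_cast
          ring
        rw [this, Real.cos_sub]
        ring
      rw [h2, A_add, A_one h, A_sum]
      congr 1
      apply Finset.sum_congr rfl
      intro k _
      rw [A_add, A_real_mul, A_real_mul]
    simp_rw [h1]
    rw [Finset.sum_range_succ']
    have h3 : (∑ k ∈ Finset.range N, ((if k + 1 = 0 then 1 else 2 * ca (k + 1)) *
        Real.cos (2 * Real.pi * ((k + 1 : ℕ) : ℝ) * x) + (2 * sa (k + 1)) *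
          Real.sin (2 * Real.pi * ((k + 1 : ℕ) : ℝ) * x)) +
        ((if (0 : ℕ) = 0 then 1 else 2 * ca 0) * Real.cos (2 * Real.pi * ((0 : ℕ) : ℝ) * x) +
          (2 * sa 0) * Real.sin (2 * Real.pi * ((0 : ℕ) : ℝ) * x))) =
        1 + ∑ k ∈ Finset.range N,
        ((2 * Real.cos (2 * Real.pi * ((k + 1 : ℕ) : ℝ) * x)) * ca (k + 1) +
          (2 * Real.sin (2 * Real.pi * ((k + 1 : ℕ) : ℝ) * x)) * sa (k + 1)) := by
      rw [add_comm]
      congr 1
      · simp
      · apply Finset.sum_congr rfl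
        intro k _
        rw [if_neg (Nat.succ_ne_zero k)]
        ring
    rw [h3]
    apply tendsto_const_nhds.add
    apply tendsto_finsetSum
    intro k _
    exact ((hca (k + 1)).const_mul _).add ((hsa (k + 1)).const_mul _)
  rw [Metric.tendsto_atTop]
  intro ε hε
  obtain ⟨N₀, hN₀⟩ := DN_small h hS x η hη n₀ hsep (ε / 2) (by positivity)
  refine ⟨N₀, fun N hN => ?_⟩
  have h1 := le_of_tendsto ((hlim N).abs) (hN₀ N hN)
  rw [Real.dist_eq, sub_zero]
  exact lt_of_le_of_lt h1 (by linarith)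

theorem t_MULT : S_MULT := by
  intro M D hok hF hj hU
  obtain ⟨j, hj⟩ := hj
  have hS : Small M D := by
    intro ε hε
    obtain ⟨K, hK⟩ := hF ε hε
    refine ⟨K, fun k hk => ?_⟩
    filter_upwards [hK k hk] with n hn
    rw [A_e]
    exact hn
  obtain ⟨a, b, ha, hab⟩ := main hok hS hj
  have h1 := (hU a b hab).1 0
  rw [ha] at h1
  exact one_ne_zero h1

end Pool.Agent.Y967.MU.MULT
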