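import Pool.Agent.Y967.MU.Stm

set_option autoImplicit false

open MeasureTheory Filter Topology

namespace Pool.Agent.Y967.MU.MULT

variable {M : ℕ → ℕ} {D : ℕ → Finset ℕ}

lemma P_zero (M : ℕ → ℕ) : P M 0 = 1 := by simp [P]

lemma P_succ (M : ℕ → ℕ) (n : ℕ) : P M (n + 1) = P M n * (M n : ℝ) := by
  unfold P
  rw [Finset.prod_range_succ]

lemma M_ge (h : Ok M D) (n : ℕ) : (2 : ℝ) ≤ M n := by exact_mod_cast h.1 n

lemma P_ge (h : Ok M D) (n : ℕ) : (2 : ℝ) ^ n ≤ P M n := by
  induction n with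
  | zero => simp [P_zero]
  | succ n ih =>
    rw [P_succ, pow_succ]
    have h1 := M_ge h n
    have h2 : (0 : ℝ) < 2 ^ n := by positivity
    nlinarith

lemma P_pos (h : Ok M D) (n : ℕ) : 0 < P M n :=
  lt_of_lt_of_le (by positivity) (P_ge h n)

lemma card_pos (h : Ok M D) (n : ℕ) : (0 : ℝ) < (D n).card := by
  exact_mod_cast Finset.card_pos.mpr (h.2 n).1

section lin
variable {E : Type*} [NormedAddCommGroup E] [NormedSpace ℝ E]

lemma A_zero (f : ℝ → E) : A M D 0 f = f 0 := rfl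

lemma A_suc (n : ℕ) (f : ℝ → E) : A M D (n + 1) f =
    ((D n).card : ℝ)⁻¹ • ∑ d ∈ D n, A M D n (fun x => f (x + (d : ℝ) / P M (n + 1))) := rfl

lemma A_congr (n : ℕ) (f g : ℝ → E) (h : ∀ x ∈ S M D n, f x = g x) : A M D n f = A M D n g := by
  induction n generalizing f g with
  | zero => exact h 0 rfl
  | succ n ih =>
    rw [A_suc, A_suc]
    congr 1
    apply Finset.sum_congr rfl
    intro d hd
    apply ih
    intro x hx
    exact h _ ⟨x, hx, d, hd, rfl⟩

lemma A_bound (hok : Ok M D) (n : ℕ) (f : ℝ → E) (B : ℝ) (h : ∀ x ∈ S M D n, ‖f x‖ ≤ B) :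
    ‖A M D n f‖ ≤ B := by
  induction n generalizing f with
  | zero => exact h 0 rfl
  | succ n ih =>
    rw [A_suc]
    have hn : (0 : ℝ) < (D n).card := card_pos hok n
    rw [norm_smul, norm_inv, Real.norm_of_nonneg hn.le]
    have h1 : ‖∑ d ∈ D n, A M D n (fun x => f (x + (d : ℝ) / P M (n + 1)))‖ ≤ ∑ d ∈ D n, B := by
      refine norm_sum_le_of_le _ fun d hd => ?_
      apply ih
      intro x hx
      exact h _ ⟨x, hx, d, hd, rfl⟩
    rw [Finset.sum_const, nsmul_eq_mul] at h1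
    rw [inv_mul_le_iff₀ hn]
    exact h1

lemma A_add (n : ℕ) (f g : ℝ → E) : A M D n (fun x => f x + g x) = A M D n f + A M D n g := by
  induction n generalizing f g with
  | zero => rfl
  | succ n ih =>
    rw [A_suc, A_suc, A_suc, ← smul_add, ← Finset.sum_add_distrib]
    congr 1
    apply Finset.sum_congr rfl
    intro d _
    exact ih (fun x => f (x + (d : ℝ) / P M (n + 1))) (fun x => g (x + (d : ℝ) / P M (n + 1)))

lemma A_map {F : Type*} [NormedAddCommGroup F] [NormedSpace ℝ F] (T : E →ₗ[ℝ] F) (n : ℕ)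
    (f : ℝ → E) : A M D n (fun x => T (f x)) = T (A M D n f) := by
  induction n generalizing f with
  | zero => rfl
  | succ n ih =>
    rw [A_suc, A_suc, map_smul, map_sum]
    congr 1
    apply Finset.sum_congr rfl
    intro d _
    exact ih (fun x => f (x + (d : ℝ) / P M (n + 1)))

lemma A_sum {ι : Type*} (s : Finset ι) (n : ℕ) (f : ι → ℝ → E) :
    A M D n (fun x => ∑ i ∈ s, f i x) = ∑ i ∈ s, A M D n (f i) := by
  classical
  induction s using Finset.induction_on with
  | empty =>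
    simp only [Finset.sum_empty]
    have h := A_map (M := M) (D := D) (0 : E →ₗ[ℝ] E) n (fun _ => (0 : E))
    simpa using h
  | insert a s ha ih =>
    simp only [Finset.sum_insert ha]
    rw [A_add, ih]

lemma A_sub (n : ℕ) (f g : ℝ → E) : A M D n (fun x => f x - g x) = A M D n f - A M D n g := by
  have h1 : A M D n (fun x => f x - g x) = A M D n (fun x => f x + (-g x)) := by
    congr 1
    funext x
    rw [sub_eq_add_neg]
  rw [h1, A_add]
  have h2 := A_map (M := M) (D := D) (-LinearMap.id : E →ₗ[ℝ] E) n g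
  simp only [LinearMap.neg_apply, LinearMap.id_coe, id_eq] at h2
  rw [h2, sub_eq_add_neg]

lemma D_lt (h : Ok M D) (n : ℕ) {d : ℕ} (hd : d ∈ D n) : (d : ℝ) + 1 ≤ M n := by
  have := (h.2 n).2 d hd
  exact_mod_cast this

lemma digit_le (h : Ok M D) (n : ℕ) {d : ℕ} (hd : d ∈ D n) : (d : ℝ) / P M (n + 1) ≤ 1 / P M n := by
  have h1 := D_lt h n hd
  have hP := P_pos h n
  have hP1 := P_pos h (n + 1)
  rw [div_le_div_iff₀ hP1 hP, P_succ]
  nlinarith

lemma A_step (hok : Ok M D) (n : ℕ) (f : ℝ → E) (L : ℝ) (hL : 0 ≤ L)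
    (hf : ∀ x y, ‖f x - f y‖ ≤ L * |x - y|) :
    dist (A M D n f) (A M D (n + 1) f) ≤ L * (1 / 2) ^ n := by
  have hn : (0 : ℝ) < (D n).card := card_pos hok n
  have h0 : A M D (n + 1) f - A M D n f =
      ((D n).card : ℝ)⁻¹ • ∑ d ∈ D n, A M D n (fun x => f (x + (d : ℝ) / P M (n + 1)) - f x) := by
    rw [A_suc]
    simp_rw [A_sub]
    rw [Finset.sum_sub_distrib, smul_sub]
    congr 1
    rw [Finset.sum_const, ← Nat.cast_smul_eq_nsmul ℝ, smul_smul]
    rw [inv_mul_cancel₀ hn.ne', one_smul]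
  rw [dist_comm, dist_eq_norm, h0, norm_smul, norm_inv, Real.norm_of_nonneg hn.le,
    inv_mul_le_iff₀ hn]
  have h1 : ‖∑ d ∈ D n, A M D n (fun x => f (x + (d : ℝ) / P M (n + 1)) - f x)‖ ≤
      ∑ d ∈ D n, L * (1 / 2) ^ n := by
    refine norm_sum_le_of_le _ fun d hd => ?_
    apply A_bound hok
    intro x _
    refine (hf _ _).trans ?_
    gcongr
    rw [add_sub_cancel_left, abs_of_nonneg (by have := P_pos hok (n + 1); positivity)]
    refine (digit_le hok n hd).trans ?_
    rw [div_pow, one_pow]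
    exact one_div_le_one_div_of_le (by positivity) (P_ge hok n)
  rw [Finset.sum_const, nsmul_eq_mul] at h1
  exact h1

lemma A_conv [CompleteSpace E] (hok : Ok M D) (f : ℝ → E) (L : ℝ) (hL : 0 ≤ L)
    (hf : ∀ x y, ‖f x - f y‖ ≤ L * |x - y|) :
    ∃ z, Tendsto (fun n => A M D n f) atTop (𝓝 z) := by
  apply cauchySeq_tendsto_of_complete
  exact cauchySeq_of_le_geometric (1 / 2) L (by norm_num) (fun n => A_step hok n f L hL hf)

end lin

lemma e_add_right (k : ℤ) (x y : ℝ) : e k (x + y) = e k x * e k y := by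
  unfold e
  rw [← Complex.exp_add]
  congr 1
  push_cast
  ring

lemma e_add_left (k m : ℤ) (x : ℝ) : e (k + m) x = e k x * e m x := by
  unfold e
  rw [← Complex.exp_add]
  congr 1
  push_cast
  ring

lemma e_eq (k : ℤ) (t : ℝ) : e k t = Complex.exp (((2 * Real.pi * k * t : ℝ) : ℂ) * Complex.I) := by
  unfold e
  congr 1
  push_cast
  ring

lemma norm_e (k : ℤ) (t : ℝ) : ‖e k t‖ = 1 := by
  rw [e_eq, Complex.norm_exp_ofReal_mul_I]

lemma A_e (n : ℕ) (k : ℤ) : A M D n (e k) = ∏ i ∈ Finset.range n, F M D i k := by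
  induction n with
  | zero => simp [A, e]
  | succ n ih =>
    rw [Finset.prod_range_succ, ← ih]
    rw [A_suc]
    unfold F
    rw [mul_smul_comm]
    congr 1
    rw [Finset.mul_sum]
    apply Finset.sum_congr rfl
    intro d _
    have h := A_map (M := M) (D := D)
      ((LinearMap.mulRight ℝ (e k ((d : ℝ) / P M (n + 1)))) : ℂ →ₗ[ℝ] ℂ) n (e k)
    simp only [LinearMap.mulRight_apply] at h
    simp_rw [e_add_right]
    rw [h]

lemma sin_low {y : ℝ} (h0 : 0 ≤ y) (h1 : y ≤ 1 / 2) : 2 * y ≤ Real.sin (Real.pi * y) := by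
  have hp := Real.pi_pos
  have h := Real.mul_le_sin (x := Real.pi * y) (by positivity) (by nlinarith)
  have : 2 / Real.pi * (Real.pi * y) = 2 * y := by field_simp
  rwa [this] at h

/-- The averages of the characters are small. -/
def Small (M : ℕ → ℕ) (D : ℕ → Finset ℕ) : Prop := ∀ ε : ℝ, 0 < ε → ∃ K : ℕ, ∀ k : ℤ,
  K ≤ k.natAbs → ∀ᶠ n in atTop, ‖A M D n (e k)‖ ≤ ε

/-! ### Continuous periodic multipliers -/

/-- `g dν` has vanishing Fourier coefficients at infinity -/
def Good (M : ℕ → ℕ) (D : ℕ → Finset ℕ) (g : C(AddCircle (1 : ℝ), ℂ)) : Prop :=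
  ∀ ε : ℝ, 0 < ε → ∃ K : ℕ, ∀ k : ℤ, K ≤ k.natAbs →
    ∀ᶠ n in atTop, ‖A M D n (fun t : ℝ => g (t : AddCircle (1 : ℝ)) * e k t)‖ ≤ ε

lemma good_fourier (hS : Small M D) (m : ℤ) : Good M D (fourier m) := by
  intro ε hε
  obtain ⟨K, hK⟩ := hS ε hε
  refine ⟨K + m.natAbs, fun k hk => ?_⟩
  have h1 : K ≤ (m + k).natAbs := by omega
  filter_upwards [hK (m + k) h1] with n hn
  have : (fun t : ℝ => (fourier m : C(AddCircle (1 : ℝ), ℂ)) (t : AddCircle (1 : ℝ)) * e k t) =
      e (m + k) := by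
    funext t
    rw [e_add_left]
    congr 1
    rw [fourier_coe_apply]
    unfold e
    congr 1
    push_cast
    ring
  rw [this]
  exact hn

lemma good_zero (hok : Ok M D) : Good M D 0 := by
  intro ε hε
  refine ⟨0, fun k _ => Eventually.of_forall fun n => ?_⟩
  apply A_bound hok
  intro x _
  simp [hε.le]

lemma good_add (g h : C(AddCircle (1 : ℝ), ℂ)) (hg : Good M D g) (hh : Good M D h) :
    Good M D (g + h) := by
  intro ε hε
  obtain ⟨K1, hK1⟩ := hg (ε / 2) (by positivity)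
  obtain ⟨K2, hK2⟩ := hh (ε / 2) (by positivity)
  refine ⟨max K1 K2, fun k hk => ?_⟩
  filter_upwards [hK1 k ((le_max_left _ _).trans hk), hK2 k ((le_max_right _ _).trans hk)]
    with n h1 h2
  have : (fun t : ℝ => (g + h) (t : AddCircle (1 : ℝ)) * e k t) =
      fun t : ℝ => g (t : AddCircle (1 : ℝ)) * e k t + h (t : AddCircle (1 : ℝ)) * e k t := by
    funext t
    simp [add_mul]
  rw [this, A_add]
  refine (norm_add_le _ _).trans ?_
  linarith

lemma A_const_mul (n : ℕ) (c : ℂ) (f : ℝ → ℂ) : A M D n (fun t => c * f t) = c * A M D n f := by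
  have h := A_map (M := M) (D := D) (LinearMap.mulLeft ℝ c : ℂ →ₗ[ℝ] ℂ) n f
  simpa using h

lemma good_smul (c : ℂ) (g : C(AddCircle (1 : ℝ), ℂ)) (hg : Good M D g) : Good M D (c • g) := by
  intro ε hε
  have hc : 0 < ‖c‖ + 1 := by positivity
  obtain ⟨K1, hK1⟩ := hg (ε / (‖c‖ + 1)) (by positivity)
  refine ⟨K1, fun k hk => ?_⟩
  filter_upwards [hK1 k hk] with n h1
  have : (fun t : ℝ => (c • g) (t : AddCircle (1 : ℝ)) * e k t) =
      fun t : ℝ => c * (g (t : AddCircle (1 : ℝ)) * e k t) := by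
    funext t
    simp [mul_assoc]
  rw [this, A_const_mul, norm_mul]
  rw [le_div_iff₀ hc] at h1
  nlinarith [norm_nonneg c,
    norm_nonneg (A M D n (fun t : ℝ => g (t : AddCircle (1 : ℝ)) * e k t))]

lemma good_span (hok : Ok M D) (hS : Small M D) (g : C(AddCircle (1 : ℝ), ℂ))
    (hg : g ∈ Submodule.span ℂ (Set.range (@fourier (1 : ℝ)))) : Good M D g := by
  induction hg using Submodule.span_induction with
  | mem x hx =>
    obtain ⟨m, rfl⟩ := hx
    exact good_fourier hS m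
  | zero => exact good_zero hok
  | add x y _ _ hx hy => exact good_add x y hx hy
  | smul c x _ hx => exact good_smul c x hx

instance : Fact (0 < (1 : ℝ)) := ⟨one_pos⟩

lemma good_all (hok : Ok M D) (hS : Small M D) (g : C(AddCircle (1 : ℝ), ℂ)) : Good M D g := by
  intro ε hε
  have h1 : g ∈ (Submodule.span ℂ (Set.range (@fourier (1 : ℝ)))).topologicalClosure := by
    rw [span_fourier_closure_eq_top]
    trivial
  have h2 : g ∈ closure ((Submodule.span ℂ (Set.range (@fourier (1 : ℝ))) :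
      Submodule ℂ C(AddCircle (1 : ℝ), ℂ)) : Set C(AddCircle (1 : ℝ), ℂ)) := h1
  rw [Metric.mem_closure_iff] at h2
  obtain ⟨p, hp, hgp⟩ := h2 (ε / 2) (by positivity)
  obtain ⟨K, hK⟩ := good_span hok hS p hp (ε / 2) (by positivity)
  refine ⟨K, fun k hk => ?_⟩
  filter_upwards [hK k hk] with n hn
  have : (fun t : ℝ => g (t : AddCircle (1 : ℝ)) * e k t) =
      fun t : ℝ => (g (t : AddCircle (1 : ℝ)) - p (t : AddCircle (1 : ℝ))) * e k t +
        p (t : AddCircle (1 : ℝ)) * e k t := by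
    funext t
    ring
  rw [this, A_add]
  refine (norm_add_le _ _).trans ?_
  have h3 : ‖A M D n (fun t : ℝ => (g (t : AddCircle (1 : ℝ)) - p (t : AddCircle (1 : ℝ))) * e k t)‖
      ≤ ε / 2 := by
    apply A_bound hok
    intro x _
    rw [norm_mul, norm_e, mul_one]
    have := ContinuousMap.dist_apply_le_dist (f := g) (g := p) (x : AddCircle (1 : ℝ))
    rw [dist_eq_norm] at this
    exact this.trans hgp.le
  linarith

end Pool.Agent.Y967.MU.MULT
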