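import Mathlib
import Pool.Agent.Y249.SU.Raj

/-! # Moran sets and sets of uniqueness: definitions and the statements of the parts -/

set_option autoImplicit false

open MeasureTheory Filter Topology

namespace Pool.Agent.Y967.MU

/-- `E ⊆ [0,1]` is a set of uniqueness. -/
def IsSetOfUniqueness (E : Set ℝ) : Prop :=
  ∀ a b : ℕ → ℝ,
    (∀ x ∈ Set.Icc (0 : ℝ) 1 \ E, Tendsto (fun N : ℕ => ∑ n ∈ Finset.range N,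
      (a n * Real.cos (2 * Real.pi * n * x) + b n * Real.sin (2 * Real.pi * n * x))) atTop (𝓝 0)) →
    (∀ n, a n = 0) ∧ ∀ n, 1 ≤ n → b n = 0

/-- The Moran set of the bases `M` and digit sets `D` (indices starting at `0`). -/
def moranSet (M : ℕ → ℕ) (D : ℕ → Finset ℕ) : Set ℝ :=
  {x | ∃ d : ℕ → ℕ, (∀ n, d n ∈ D n) ∧
    HasSum (fun n => (d n : ℝ) / ∏ i ∈ Finset.range (n + 1), ((M i : ℕ) : ℝ)) x}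

/-- Admissible data. -/
def Ok (M : ℕ → ℕ) (D : ℕ → Finset ℕ) : Prop :=
  (∀ n, 2 ≤ M n) ∧ ∀ n, (D n).Nonempty ∧ ∀ d ∈ D n, d < M n

/-- The product of the first `n` bases. -/
noncomputable def P (M : ℕ → ℕ) (n : ℕ) : ℝ := ∏ i ∈ Finset.range n, ((M i : ℕ) : ℝ)

/-- The average of `f` over the points `∑_{i<n} d_i / P (i+1)`, `d_i ∈ D_i`. -/
noncomputable def A {E : Type*} [AddCommGroup E] [Module ℝ E] (M : ℕ → ℕ) (D : ℕ → Finset ℕ) :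
    ℕ → (ℝ → E) → E
  | 0, f => f 0
  | (n + 1), f =>
    ((D n).card : ℝ)⁻¹ • ∑ d ∈ D n, A M D n (fun x => f (x + (d : ℝ) / P M (n + 1)))

/-- The points `∑_{i<n} d_i / P (i+1)`, `d_i ∈ D_i`. -/
def S (M : ℕ → ℕ) (D : ℕ → Finset ℕ) : ℕ → Set ℝ
  | 0 => {0}
  | (n + 1) => {y | ∃ x ∈ S M D n, ∃ d ∈ D n, y = x + (d : ℝ) / P M (n + 1)}

/-- `e(k t)` -/
noncomputable def e (k : ℤ) (t : ℝ) : ℂ := Complex.exp (2 * Real.pi * Complex.I * k * t)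

/-- The factor of the Fourier transform of the natural measure at `k`. -/
noncomputable def F (M : ℕ → ℕ) (D : ℕ → Finset ℕ) (i : ℕ) (k : ℤ) : ℂ :=
  ((D i).card : ℝ)⁻¹ • ∑ d ∈ D i, e k ((d : ℝ) / P M (i + 1))

/-- `#D_n / M_n → 1`. -/
def Full (M : ℕ → ℕ) (D : ℕ → Finset ℕ) : Prop :=
  Tendsto (fun n => ((D n).card : ℝ) / (M n : ℝ)) atTop (𝓝 1)

/-- `∏ #D_n / M_n = 0`. -/
def Null (M : ℕ → ℕ) (D : ℕ → Finset ℕ) : Prop :=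
  Tendsto (fun n => ∏ i ∈ Finset.range n, (((D i).card : ℝ) / (M i : ℝ))) atTop (𝓝 0)

/-- Job MU-BUMP. -/
def S_BUMP : Prop := ∀ α β : ℝ, 0 ≤ α → α < β → β ≤ 1 → ∃ γ : ℤ → ℂ,
  (Summable fun j : ℤ => (1 + |(j : ℝ)|) * ‖γ j‖) ∧ γ 0 ≠ 0 ∧
  ∀ x ∈ Set.Icc (0 : ℝ) 1, x ∉ Set.Ioo α β → Pool.Agent.Y249.SU.lam γ x = 0

/-- Job MU-SER. -/
def S_SER : Prop := ∀ K : Set ℝ, K ⊆ Set.Icc (0 : ℝ) 1 → ∀ m : ℕ → ℤ, Tendsto m atTop atTop →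
  ∀ γ : ℤ → ℂ, (Summable fun j : ℤ => (1 + |(j : ℝ)|) * ‖γ j‖) → γ 0 ≠ 0 →
  (∀ x ∈ K, ∀ k, Pool.Agent.Y249.SU.lam γ (m k * x) = 0) →
  (∃ a b : ℝ, 0 ≤ a ∧ a < b ∧ b ≤ 1 ∧ ∀ x ∈ Set.Ioo a b, x ∉ K) → IsSetOfUniqueness K

/-- Job MU-CAN, first part. -/
def S_CAN1 : Prop := ∀ (M : ℕ → ℕ) (D : ℕ → Finset ℕ), Ok M D →
  moranSet M D ⊆ Set.Icc (0 : ℝ) 1 ∧
  ∀ x ∈ moranSet M D, ∀ n : ℕ, ∃ z : ℤ, ∃ d ∈ D n, ∃ y ∈ Set.Icc (0 : ℝ) 1,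
    P M n * x = z + ((d : ℝ) + y) / (M n : ℝ)

/-- Job MU-CAN, second part. -/
def S_CAN2 : Prop := ∀ (M : ℕ → ℕ) (D : ℕ → Finset ℕ), Ok M D → volume (moranSet M D) = 0 →
  ∀ N : ℕ, ∃ n, N ≤ n ∧ ∃ d, d < M n ∧ d ∉ D n

/-- Job MU-BDD. -/
def S_BDD : Prop := ∀ M : ℕ → ℕ, (∃ B, ∀ n, M n ≤ B) → ∀ D : ℕ → Finset ℕ, Ok M D →
  volume (moranSet M D) = 0 → IsSetOfUniqueness (moranSet M D)

/-- Job MU-UNB. -/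
def S_UNB : Prop := ∀ M : ℕ → ℕ, (∀ n, 2 ≤ M n) → (∀ B, ∃ n, B < M n) →
  ∃ D : ℕ → Finset ℕ, Ok M D ∧ Full M D ∧ Null M D

/-- Job MU-VOL. -/
def S_VOL : Prop := ∀ (M : ℕ → ℕ) (D : ℕ → Finset ℕ), Ok M D → Null M D →
  volume (moranSet M D) = 0

/-- Job MU-RAJ. -/
def S_RAJ : Prop := ∀ (M : ℕ → ℕ) (D : ℕ → Finset ℕ), Ok M D → Full M D → ∀ ε : ℝ, 0 < ε →
  ∃ K : ℕ, ∀ k : ℤ, K ≤ k.natAbs → ∀ᶠ n in atTop, ‖∏ i ∈ Finset.range n, F M D i k‖ ≤ ε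

/-- Job MU-RED. -/
def S_RED : Prop := ∀ (M : ℕ → ℕ) (D : ℕ → Finset ℕ), Ok M D → Full M D →
  ∃ D' : ℕ → Finset ℕ, Ok M D' ∧ Full M D' ∧ (∀ n, D' n ⊆ D n) ∧
    ∃ j, ∀ t ∈ S M D' j, 0 < t ∧ t + 1 / P M j < 1

/-- Job MU-MULT. -/
def S_MULT : Prop := ∀ (M : ℕ → ℕ) (D : ℕ → Finset ℕ), Ok M D →
  (∀ ε : ℝ, 0 < ε → ∃ K : ℕ, ∀ k : ℤ, K ≤ k.natAbs →
    ∀ᶠ n in atTop, ‖∏ i ∈ Finset.range n, F M D i k‖ ≤ ε) →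
  (∃ j, ∀ t ∈ S M D j, 0 < t ∧ t + 1 / P M j < 1) → ¬ IsSetOfUniqueness (moranSet M D)

end Pool.Agent.Y967.MU
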