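import Pool.Agent.Y967.MU.MULT

set_option autoImplicit false

open MeasureTheory Filter Topology

namespace Pool.Agent.Y967.MU.VOL

open Pool.Agent.Y967.MU.MULT

variable {M : ℕ → ℕ} {D : ℕ → Finset ℕ}

/-- finite set of level `n` points -/
noncomputable def Sf (M : ℕ → ℕ) (D : ℕ → Finset ℕ) : ℕ → Finset ℝ
  | 0 => {0}
  | (n + 1) => (Sf M D n ×ˢ D n).image (fun p => p.1 + (p.2 : ℝ) / P M (n + 1))

lemma card_Sf (n : ℕ) : ((Sf M D n).card : ℝ) ≤ ∏ i ∈ Finset.range n, ((D i).card : ℝ) := by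
  induction n with
  | zero => simp [Sf]
  | succ n ih =>
    unfold Sf
    rw [Finset.prod_range_succ]
    have h1 : (((Sf M D n ×ˢ D n).image (fun p => p.1 + (p.2 : ℝ) / P M (n + 1))).card : ℝ) ≤
        ((Sf M D n ×ˢ D n).card : ℝ) := by exact_mod_cast Finset.card_image_le
    refine h1.trans ?_
    rw [Finset.card_product]
    push_cast
    gcongr

lemma partial_mem {d : ℕ → ℕ} (hd : ∀ n, d n ∈ D n) (n : ℕ) :
    ∑ i ∈ Finset.range n, (d i : ℝ) / P M (i + 1) ∈ Sf M D n := by
  induction n with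
  | zero => simp [Sf]
  | succ n ih =>
    rw [Finset.sum_range_succ]
    unfold Sf
    rw [Finset.mem_image]
    exact ⟨(_, d n), Finset.mem_product.mpr ⟨ih, hd n⟩, rfl⟩

lemma KK_subset (h : Ok M D) (n : ℕ) :
    moranSet M D ⊆ ⋃ t ∈ Sf M D n, Set.Icc t (t + 1 / P M n) := by
  rintro x ⟨d, hd, hs⟩
  have h1 := point_near h hd hs n
  exact Set.mem_biUnion (partial_mem hd n) ⟨h1.1, h1.2⟩

lemma volume_le (h : Ok M D) (n : ℕ) : volume (moranSet M D) ≤
    ENNReal.ofReal (∏ i ∈ Finset.range n, (((D i).card : ℝ) / (M i : ℝ))) := by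
  have hP := P_pos h n
  calc volume (moranSet M D)
      ≤ volume (⋃ t ∈ Sf M D n, Set.Icc t (t + 1 / P M n)) := measure_mono (KK_subset h n)
    _ ≤ ∑ t ∈ Sf M D n, volume (Set.Icc t (t + 1 / P M n)) := measure_biUnion_finset_le _ _
    _ = ∑ t ∈ Sf M D n, ENNReal.ofReal (1 / P M n) := by
        apply Finset.sum_congr rfl
        intro t _
        rw [Real.volume_Icc]
        congr 1
        ring
    _ = ENNReal.ofReal ((Sf M D n).card * (1 / P M n)) := by
        rw [Finset.sum_const, nsmul_eq_mul, ENNReal.ofReal_mul (by positivity)]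
        simp
    _ ≤ ENNReal.ofReal (∏ i ∈ Finset.range n, (((D i).card : ℝ) / (M i : ℝ))) := by
        apply ENNReal.ofReal_le_ofReal
        rw [Finset.prod_div_distrib, mul_one_div]
        have : (∏ i ∈ Finset.range n, ((M i : ℕ) : ℝ)) = P M n := rfl
        rw [this]
        gcongr
        exact card_Sf n

theorem t_VOL : S_VOL := by
  intro M D h hN
  have h3 := ENNReal.tendsto_ofReal hN
  rw [ENNReal.ofReal_zero] at h3
  exact le_antisymm (ge_of_tendsto' h3 (volume_le h)) bot_le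

end Pool.Agent.Y967.MU.VOL
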